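import Pool.Agent.W553.PM.Stm

/-! Projective metric planes, affine part: the shape of small balls. -/

set_option autoImplicit false

namespace Pool.Agent.W553.PM.Cmp

open Set Filter Topology Pool.Agent.W553.PM

lemma ip_ee_ee (φ : ℝ) : ip (ee φ) (ee φ) = 1 := by
  unfold ip ee; simp only; nlinarith [Real.cos_sq_add_sin_sq φ]
lemma ip_ww_ww (φ : ℝ) : ip (ww φ) (ww φ) = 1 := by
  unfold ip ww; simp only; nlinarith [Real.cos_sq_add_sin_sq φ]
lemma ip_ww_ee (φ : ℝ) : ip (ww φ) (ee φ) = 0 := by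
  unfold ip ww ee; simp only; ring
lemma ip_sub_r (u v w : P) : ip u (v - w) = ip u v - ip u w := by
  unfold ip; simp only [Prod.fst_sub, Prod.snd_sub]; ring
lemma ip_add_r (u v w : P) : ip u (v + w) = ip u v + ip u w := by
  unfold ip; simp only [Prod.fst_add, Prod.snd_add]; ring
lemma ip_smul_r (u v : P) (c : ℝ) : ip u (c • v) = c * ip u v := by
  unfold ip; simp only [Prod.smul_fst, Prod.smul_snd, smul_eq_mul]; ring
lemma ip_neg_l (u v : P) : ip (-u) v = - ip u v := by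
  unfold ip; simp only [Prod.fst_neg, Prod.snd_neg]; ring
lemma ip_neg_r (u v : P) : ip u (-v) = - ip u v := by
  unfold ip; simp only [Prod.fst_neg, Prod.snd_neg]; ring

lemma ww_ne (φ : ℝ) : ww φ ≠ 0 := by
  intro h
  have := ip_ww_ww φ
  rw [h] at this
  unfold ip at this
  simp at this

lemma ee_cont : Continuous ee := by unfold ee; fun_prop
lemma ww_cont : Continuous ww := by unfold ww; fun_prop

theorem T_danskin : S_danskin := by
  intro Y hY hmax X φ
  have hG : HasDerivAt (fun ψ => ip (ee ψ) (Y φ - X)) (ip (ww φ) (Y φ - X)) φ := by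
    unfold ip ee ww
    simp only
    exact ((Real.hasDerivAt_cos φ).mul_const _).add ((Real.hasDerivAt_sin φ).mul_const _)
  have hR : HasDerivAt (fun ψ => ip (ee ψ) (Y ψ - Y φ)) 0 φ := by
    rw [hasDerivAt_iff_isLittleO]
    have e : (fun ψ => ip (ee ψ) (Y ψ - Y φ) - ip (ee φ) (Y φ - Y φ) - (ψ - φ) • (0:ℝ)) =
        fun ψ => ip (ee ψ) (Y ψ - Y φ) := by
      funext ψ
      simp [ip]
    rw [e]
    have hb : (fun ψ => ip (ee ψ) (Y ψ - Y φ)) =O[𝓝 φ] (fun ψ =>
        (Real.cos ψ - Real.cos φ) * (Y ψ - Y φ).1 + (Real.sin ψ - Real.sin φ) * (Y ψ - Y φ).2) := by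
      apply Asymptotics.IsBigO.of_bound 1
      filter_upwards with ψ
      rw [one_mul, Real.norm_eq_abs, Real.norm_eq_abs]
      have h1 : 0 ≤ ip (ee ψ) (Y ψ - Y φ) := by
        rw [ip_sub_r]; linarith [hmax ψ φ]
      have h2 : ip (ee φ) (Y ψ - Y φ) ≤ 0 := by
        rw [ip_sub_r]; linarith [hmax φ ψ]
      have h3 : (Real.cos ψ - Real.cos φ) * (Y ψ - Y φ).1 +
          (Real.sin ψ - Real.sin φ) * (Y ψ - Y φ).2 =
          ip (ee ψ) (Y ψ - Y φ) - ip (ee φ) (Y ψ - Y φ) := by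
        unfold ip ee; simp only; ring
      rw [h3, abs_of_nonneg h1, abs_of_nonneg (by linarith)]
      linarith
    refine hb.trans_isLittleO ?_
    have hc1 : (fun ψ => Real.cos ψ - Real.cos φ) =O[𝓝 φ] (fun ψ => ψ - φ) :=
      (Real.hasDerivAt_cos φ).isBigO_sub
    have hs1 : (fun ψ => Real.sin ψ - Real.sin φ) =O[𝓝 φ] (fun ψ => ψ - φ) :=
      (Real.hasDerivAt_sin φ).isBigO_sub
    have hY1 : (fun ψ => (Y ψ - Y φ).1) =o[𝓝 φ] (fun _ => (1:ℝ)) := by
      rw [Asymptotics.isLittleO_one_iff]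
      have h : Continuous (fun ψ => (Y ψ - Y φ).1) := by fun_prop
      have := h.tendsto φ
      simpa using this
    have hY2 : (fun ψ => (Y ψ - Y φ).2) =o[𝓝 φ] (fun _ => (1:ℝ)) := by
      rw [Asymptotics.isLittleO_one_iff]
      have h : Continuous (fun ψ => (Y ψ - Y φ).2) := by fun_prop
      have := h.tendsto φ
      simpa using this
    have h1 := hc1.mul_isLittleO hY1
    have h2 := hs1.mul_isLittleO hY2
    simp only [mul_one] at h1 h2
    exact h1.add h2
  have h := hG.add hR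
  rw [add_zero] at h
  refine h.congr_of_eventuallyEq (Eventually.of_forall fun ψ => ?_)
  simp only [Pi.add_apply]
  unfold ip
  simp only [Prod.fst_sub, Prod.snd_sub]
  ring

variable {M : Set P} {d : P → P → ℝ} {n : P → P → P}

lemma contAt_n2 (hM : PMet M d) (hc : NCont M n) {O : P} (hO : O ∈ M) (φ : ℝ) :
    ContinuousAt (fun p : P × ℝ => n p.1 (ww p.2)) (O, φ) := by
  have hopen : IsOpen (M ×ˢ {u : P | u ≠ 0}) := hM.opn.prod isOpen_ne
  have h1 : ContinuousAt (fun p : P × P => n p.1 p.2) (O, ww φ) :=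
    hc.continuousAt (hopen.mem_nhds ⟨hO, ww_ne φ⟩)
  have h2 : ContinuousAt (fun p : P × ℝ => (p.1, ww p.2)) (O, φ) := by
    have := ww_cont
    fun_prop
  exact ContinuousAt.comp (f := fun p : P × ℝ => (p.1, ww p.2))
    (g := fun p : P × P => n p.1 p.2) h1 h2

lemma contAt_ip {α : Type*} [TopologicalSpace α] {f g : α → P} {x : α} (hf : ContinuousAt f x)
    (hg : ContinuousAt g x) : ContinuousAt (fun y => ip (f y) (g y)) x := by
  unfold ip; fun_prop

lemma contAt_TT2 (hM : PMet M d) (hc : NCont M n) {O : P} (hO : O ∈ M) (φ : ℝ) :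
    ContinuousAt (fun p : P × ℝ => TT n p.1 p.2) (O, φ) := by
  have h1 := contAt_n2 hM hc hO φ
  have h2 : Continuous (fun p : P × ℝ => ww p.2) := ww_cont.comp continuous_snd
  unfold TT
  exact (contAt_ip h2.continuousAt h1).neg

lemma cont_TT (hM : PMet M d) (hc : NCont M n) {O : P} (hO : O ∈ M) : Continuous (TT n O) := by
  rw [continuous_iff_continuousAt]
  intro φ
  have h1 := contAt_TT2 hM hc hO φ
  have h2 : ContinuousAt (fun ψ : ℝ => (O, ψ)) φ := by fun_prop
  exact ContinuousAt.comp (f := fun ψ : ℝ => (O, ψ)) (g := fun p : P × ℝ => TT n p.1 p.2) h1 h2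

lemma ip_ww_aa (Y : P) (φ : ℝ) : ip (ww φ) (aa n Y φ) = TT n Y φ := by
  unfold aa
  rw [ip_add_r, ip_smul_r, ip_ww_ee, ip_ww_ww]; ring

lemma near_TT (hM : PMet M d) (hc : NCont M n) {O : P} (hO : O ∈ M) {ε : ℝ} (hε : 0 < ε) :
    ∃ δ > 0, ∀ Z : P, dist Z O < δ → Z ∈ M ∧ ∀ φ ∈ Icc (-10 : ℝ) 10,
      |TT n Z φ - TT n O φ| ≤ ε := by
  have h : ∀ᶠ Z in 𝓝 O, ∀ φ ∈ Icc (-10 : ℝ) 10, |TT n Z φ - TT n O φ| < ε := by
    apply isCompact_Icc.eventually_forall_of_forall_eventually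
    intro φ _
    have h1 := contAt_TT2 hM hc hO φ
    have h2 : ContinuousAt (fun p : P × ℝ => TT n O p.2) (O, φ) :=
      ((cont_TT hM hc hO).comp continuous_snd).continuousAt
    have h3 : ContinuousAt (fun p : P × ℝ => |TT n p.1 p.2 - TT n O p.2|) (O, φ) := by fun_prop
    apply h3.eventually_lt_const
    simpa using hε
  obtain ⟨δ, hδ, h'⟩ := Metric.eventually_nhds_iff.1 (h.and (hM.opn.mem_nhds hO))
  exact ⟨δ, hδ, fun Z hZ => ⟨(h' hZ).2, fun φ hφ => ((h' hZ).1 φ hφ).le⟩⟩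

theorem T_compare (hsmall : S_small) (hdan : S_danskin) : S_compare := by
  intro M d n hM hp hc O hO ε hε
  obtain ⟨δ, hδ, hTT⟩ := near_TT hM hc hO (ε := ε / 20) (by positivity)
  obtain ⟨ρ, hρ, hs⟩ := hsmall M d hM O hO δ hδ
  refine ⟨ρ, hρ, fun X hX hXO r hr hrρ Y hY φ hφ ψ hψ => ?_⟩
  have hYO : ∀ t, dist (Y t) O < δ := fun t =>
    hs X hX hXO (Y t) (hY.mem t) (by rw [hY.dst t]; exact hrρ.le)
  set H : ℝ → ℝ := fun t => ip (ee t) (Y t - X) with hH
  have hpos : ∀ t, 0 < H t := hY.pos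
  have hder : ∀ t, HasDerivAt H (H t * TT n (Y t) t) t := by
    intro t
    have h1 := hdan Y hY.cont (fun a b => hY.max a (Y b) (hY.mem b) (by rw [hY.dst b])) X t
    have h2 : ip (ww t) (Y t - X) = H t * TT n (Y t) t := by
      rw [hY.dir t, ip_smul_r, ip_ww_aa]
    rw [h2] at h1
    exact h1
  have hlog : ∀ t, HasDerivAt (fun t => Real.log (H t)) (TT n (Y t) t) t := by
    intro t
    have := (hder t).log (hpos t).ne'
    have e : H t * TT n (Y t) t / H t = TT n (Y t) t := by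
      have := (hpos t).ne'
      field_simp
    rwa [e] at this
  have hcT := cont_TT hM hc hO
  have hint : ∀ t, HasDerivAt (fun t => ∫ x in (0:ℝ)..t, TT n O x) (TT n O t) t := fun t =>
    intervalIntegral.integral_hasDerivAt_right (hcT.intervalIntegrable _ _)
      (hcT.stronglyMeasurableAtFilter _ _) hcT.continuousAt
  have hK : ∀ t ∈ Icc (-10:ℝ) 10, HasDerivWithinAt
      (fun t => Real.log (H t) - ∫ x in (0:ℝ)..t, TT n O x) (TT n (Y t) t - TT n O t)
      (Icc (-10) 10) t := fun t _ => ((hlog t).sub (hint t)).hasDerivWithinAt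
  have hmv := (convex_Icc (-10:ℝ) 10).norm_image_sub_le_of_norm_hasDerivWithin_le hK
    (C := ε / 20) (fun t ht => by
      rw [Real.norm_eq_abs]; exact (hTT (Y t) (hYO t)).2 t ht) hψ hφ
  have e1 : (∫ x in ψ..φ, TT n O x) = (∫ x in (0:ℝ)..φ, TT n O x) - ∫ x in (0:ℝ)..ψ, TT n O x := by
    rw [intervalIntegral.integral_interval_sub_left (hcT.intervalIntegrable _ _)
      (hcT.intervalIntegrable _ _)]
  rw [e1]
  rw [Real.norm_eq_abs, Real.norm_eq_abs] at hmv
  have e2 : |φ - ψ| ≤ 20 := by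
    rw [abs_le]; constructor <;> linarith [hφ.1, hφ.2, hψ.1, hψ.2]
  calc |Real.log (H φ) - Real.log (H ψ) - ((∫ x in (0:ℝ)..φ, TT n O x) -
        ∫ x in (0:ℝ)..ψ, TT n O x)| = |(Real.log (H φ) - ∫ x in (0:ℝ)..φ, TT n O x) -
        (Real.log (H ψ) - ∫ x in (0:ℝ)..ψ, TT n O x)| := by congr 1; ring
    _ ≤ ε / 20 * |φ - ψ| := hmv
    _ ≤ ε / 20 * 20 := mul_le_mul_of_nonneg_left e2 (by positivity)
    _ = ε := by ring

lemma ee_add_pi (φ : ℝ) : ee (φ + Real.pi) = -ee φ := by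
  unfold ee; ext <;> simp [Real.cos_add_pi, Real.sin_add_pi]
lemma ww_add_pi (φ : ℝ) : ww (φ + Real.pi) = -ww φ := by
  unfold ww; ext <;> simp [Real.cos_add_pi, Real.sin_add_pi]

lemma TT_add_pi (hnh : S_nhom) (hM : PMet M d) (hp : Perp M d n) {O : P} (hO : O ∈ M) (φ : ℝ) :
    TT n O (φ + Real.pi) = TT n O φ := by
  unfold TT
  rw [ww_add_pi]
  have := hnh M d n hM hp O hO (ww φ) (ww_ne φ) (-1) (by norm_num)
  simp only [neg_smul, one_smul] at this
  rw [this, ip_neg_l]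
  have e : ((-1:ℝ))⁻¹ = -1 := by norm_num
  rw [e, neg_smul, one_smul, ip_neg_r]
  ring

theorem T_G (hcon : S_contact) (hcmp : S_compare) (hnh : S_nhom) : S_G := by
  intro M d n hM hp hc O hO
  have hcT := cont_TT hM hc hO
  have hii : ∀ a b, IntervalIntegrable (TT n O) MeasureTheory.volume a b := fun a b =>
    hcT.intervalIntegrable a b
  have hper : Function.Periodic (TT n O) Real.pi := fun φ => TT_add_pi hnh hM hp hO φ
  have hpi : Real.pi < 3.15 := Real.pi_lt_d2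
  have hpi0 := Real.pi_pos
  -- integral over a period vanishes
  have hint0 : (∫ t in (0:ℝ)..Real.pi, TT n O t) = 0 := by
    have h2 : (∫ t in (0:ℝ)..(2 * Real.pi), TT n O t) = 0 := by
      by_contra hne
      set I := ∫ t in (0:ℝ)..(2 * Real.pi), TT n O t with hI
      have hI0 : 0 < |I| := abs_pos.2 hne
      obtain ⟨ρ₁, hρ₁, h1⟩ := hcmp M d n hM hp hc O hO (|I| / 2) (by positivity)
      obtain ⟨ρ₂, hρ₂, h2⟩ := hcon M d n hM hp hc O hO 1 one_pos
      set r := min ρ₁ ρ₂ / 2 with hr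
      have hmin : 0 < min ρ₁ ρ₂ := lt_min hρ₁ hρ₂
      have hr0 : 0 < r := by positivity
      have hr1 : r < ρ₁ := by have := min_le_left ρ₁ ρ₂; linarith
      have hr2 : r < ρ₂ := by have := min_le_right ρ₁ ρ₂; linarith
      obtain ⟨Y, hY, -⟩ := h2 O hO (by rwa [dist_self]) r hr0 hr2
      have h3 := h1 O hO (by rwa [dist_self]) r hr0 hr1 Y hY (2 * Real.pi)
        ⟨by linarith, by linarith⟩ 0 ⟨by norm_num, by norm_num⟩
      have e0 : ee (2 * Real.pi) = ee 0 := by unfold ee; simp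
      have e1 : ip (ee (2 * Real.pi)) (Y (2 * Real.pi) - O) = ip (ee 0) (Y 0 - O) := by
        have a1 := hY.max 0 (Y (2 * Real.pi)) (hY.mem _) (by rw [hY.dst])
        have a2 := hY.max (2 * Real.pi) (Y 0) (hY.mem _) (by rw [hY.dst])
        rw [e0] at a2 ⊢
        rw [ip_sub_r, ip_sub_r]
        linarith
      rw [e1, sub_self, zero_sub, abs_neg] at h3
      linarith
    have h3 : (∫ t in (0:ℝ)..(2 * Real.pi), TT n O t) =
        (∫ t in (0:ℝ)..Real.pi, TT n O t) + ∫ t in Real.pi..(2 * Real.pi), TT n O t :=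
      (intervalIntegral.integral_add_adjacent_intervals (hii _ _) (hii _ _)).symm
    have h4 : (∫ t in Real.pi..(2 * Real.pi), TT n O t) = ∫ t in (0:ℝ)..Real.pi, TT n O t := by
      have := hper.intervalIntegral_add_eq Real.pi 0
      rw [zero_add] at this
      rw [← this]
      congr 1
      ring
    rw [h4] at h3
    linarith
  have hGper : ∀ φ, GG n O (φ + Real.pi) = GG n O φ := by
    intro φ
    unfold GG
    congr 1
    rw [← intervalIntegral.integral_add_adjacent_intervals (hii 0 φ) (hii φ (φ + Real.pi))]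
    have := hper.intervalIntegral_add_eq φ 0
    rw [zero_add] at this
    rw [this, hint0, add_zero]
  refine ⟨hGper, ?_⟩
  -- support inequality on a bounded range
  have hsup : ∀ φ ∈ Icc (-10:ℝ) 10, ∀ ψ ∈ Icc (-10:ℝ) 10,
      GG n O ψ * ip (ee φ) (aa n O ψ) ≤ GG n O φ := by
    intro φ hφ ψ hψ
    by_contra hcontra
    push Not at hcontra
    have hGφ : 0 < GG n O φ := Real.exp_pos _
    have hGψ : 0 < GG n O ψ := Real.exp_pos _
    -- choose ε
    have hc1 : ContinuousAt (fun ε : ℝ => Real.exp ε * GG n O φ) 0 := by fun_prop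
    have hc2 : ∀ᶠ ε in 𝓝 (0:ℝ), Real.exp ε * GG n O φ < GG n O ψ * ip (ee φ) (aa n O ψ) := by
      apply hc1.eventually_lt_const
      simpa using hcontra
    obtain ⟨ε, hε, hεlt⟩ : ∃ ε : ℝ, 0 < ε ∧
        Real.exp ε * GG n O φ < GG n O ψ * ip (ee φ) (aa n O ψ) := by
      have h1 := hc2.filter_mono (nhdsWithin_le_nhds (s := Ioi (0:ℝ)))
      obtain ⟨ε, h2, h3⟩ := (h1.and self_mem_nhdsWithin).exists
      exact ⟨ε, h3, h2⟩
    -- choose δ
    have hca : ContinuousAt (fun Z : P => GG n O ψ * ip (ee φ) (aa n Z ψ)) O := by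
      have h1 := contAt_TT2 hM hc hO ψ
      have h2 : ContinuousAt (fun Z : P => (Z, ψ)) O := by fun_prop
      have h3 : ContinuousAt (fun Z : P => TT n Z ψ) O :=
        ContinuousAt.comp (f := fun Z : P => (Z, ψ)) (g := fun p : P × ℝ => TT n p.1 p.2) h1 h2
      unfold ip aa
      fun_prop
    have hcb := hca.eventually_const_lt hεlt
    obtain ⟨δ, hδ, hδ'⟩ := Metric.eventually_nhds_iff.1 hcb
    obtain ⟨ρ₁, hρ₁, h1⟩ := hcmp M d n hM hp hc O hO ε hε
    obtain ⟨ρ₂, hρ₂, h2⟩ := hcon M d n hM hp hc O hO δ hδ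
    set r := min ρ₁ ρ₂ / 2 with hr
    have hmin : 0 < min ρ₁ ρ₂ := lt_min hρ₁ hρ₂
    have hr0 : 0 < r := by positivity
    have hr1 : r < ρ₁ := by have := min_le_left ρ₁ ρ₂; linarith
    have hr2 : r < ρ₂ := by have := min_le_right ρ₁ ρ₂; linarith
    obtain ⟨Y, hY, hYδ⟩ := h2 O hO (by rwa [dist_self]) r hr0 hr2
    have h3 := h1 O hO (by rwa [dist_self]) r hr0 hr1 Y hY φ hφ ψ hψ
    have h4 := hδ' (hYδ ψ)
    set Hφ := ip (ee φ) (Y φ - O) with hHφ
    set Hψ := ip (ee ψ) (Y ψ - O) with hHψ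
    have hHφ0 : 0 < Hφ := hY.pos φ
    have hHψ0 : 0 < Hψ := hY.pos ψ
    have h5 : Hψ * ip (ee φ) (aa n (Y ψ) ψ) ≤ Hφ := by
      rw [← ip_smul_r, ← hY.dir ψ, hHφ, ip_sub_r, ip_sub_r]
      have := hY.max φ (Y ψ) (hY.mem ψ) (by rw [hY.dst])
      linarith
    have h6 : Hφ * GG n O ψ ≤ Hψ * (Real.exp ε * GG n O φ) := by
      have a1 := (abs_le.1 h3).2
      have a2 : (∫ t in ψ..φ, TT n O t) = Real.log (GG n O φ) - Real.log (GG n O ψ) := by
        unfold GG
        rw [Real.log_exp, Real.log_exp, intervalIntegral.integral_interval_sub_left (hii _ _)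
          (hii _ _)]
      rw [a2] at a1
      have a3 : Real.log (Hφ * GG n O ψ) ≤ Real.log (Hψ * (Real.exp ε * GG n O φ)) := by
        rw [Real.log_mul hHφ0.ne' hGψ.ne', Real.log_mul hHψ0.ne' (by positivity),
          Real.log_mul (Real.exp_pos _).ne' hGφ.ne', Real.log_exp]
        linarith
      exact (Real.log_le_log_iff (by positivity) (by positivity)).1 a3
    have h7 : GG n O ψ * (Hψ * ip (ee φ) (aa n (Y ψ) ψ)) ≤ GG n O ψ * Hφ :=
      mul_le_mul_of_nonneg_left h5 hGψ.le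
    have h8 : Hψ * (Real.exp ε * GG n O φ) < Hψ * (GG n O ψ * ip (ee φ) (aa n (Y ψ) ψ)) :=
      mul_lt_mul_of_pos_left h4 hHψ0
    nlinarith
  -- periodicity
  have hGper2 : ∀ φ, GG n O (φ + 2 * Real.pi) = GG n O φ := by
    intro φ
    have : φ + 2 * Real.pi = φ + Real.pi + Real.pi := by ring
    rw [this, hGper, hGper]
  have hee2 : ∀ φ, ee (φ + 2 * Real.pi) = ee φ := by
    intro φ
    have : φ + 2 * Real.pi = φ + Real.pi + Real.pi := by ring
    rw [this, ee_add_pi, ee_add_pi, neg_neg]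
  have hww2 : ∀ φ, ww (φ + 2 * Real.pi) = ww φ := by
    intro φ
    have : φ + 2 * Real.pi = φ + Real.pi + Real.pi := by ring
    rw [this, ww_add_pi, ww_add_pi, neg_neg]
  have haa2 : ∀ φ, aa n O (φ + 2 * Real.pi) = aa n O φ := by
    intro φ
    have hT : TT n O (φ + 2 * Real.pi) = TT n O φ := by
      have : φ + 2 * Real.pi = φ + Real.pi + Real.pi := by ring
      rw [this, hper, hper]
    unfold aa
    rw [hT, hee2, hww2]
  intro φ ψ
  have p1 : Function.Periodic (fun φ => GG n O ψ * ip (ee φ) (aa n O ψ) - GG n O φ)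
      (2 * Real.pi) := by
    intro x; simp only; rw [hGper2, hee2]
  obtain ⟨φ', hφ', e1⟩ := p1.exists_mem_Ico₀ (by positivity) φ
  have p2 : Function.Periodic (fun ψ => GG n O ψ * ip (ee φ') (aa n O ψ) - GG n O φ')
      (2 * Real.pi) := by
    intro x; simp only; rw [hGper2, haa2]
  obtain ⟨ψ', hψ', e2⟩ := p2.exists_mem_Ico₀ (by positivity) ψ
  have h := hsup φ' ⟨by linarith [hφ'.1], by linarith [hφ'.2]⟩ ψ' ⟨by linarith [hψ'.1],
    by linarith [hψ'.2]⟩
  linarith

end Pool.Agent.W553.PM.Cmp
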