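import Pool.Agent.W553.PM.StmB

/-! Projective metric planes, projective part: from `EMet` to the frozen conclusion. -/

set_option autoImplicit false

namespace Pool.Agent.W553.PMB

open Set Filter Topology

theorem partB (h1 : S_transB) (h2 : S_finB) (d : V → V → ℝ) (L : ℝ) (hd : FB d L) :
    ∃ c : ℝ, 0 < c ∧ ∃ f : V → V,
        (∀ x ∈ Metric.sphere (0 : V) 1, f x ∈ Metric.sphere (0 : V) 1) ∧
        (∀ z ∈ Metric.sphere (0 : V) 1,
          ∃ x ∈ Metric.sphere (0 : V) 1, f x = z ∨ f x = -z) ∧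
        ∀ x ∈ Metric.sphere (0 : V) 1, ∀ y ∈ Metric.sphere (0 : V) 1,
            c * d x y = Real.arccos |inner ℝ (f x) (f y)| := by
  have hE := h1 d L hd
  obtain ⟨g, hg⟩ := h2 _ _ hE
  have hL := hd.pos
  have hne : ∀ x ∈ Metric.sphere (0 : V) 1, x ≠ 0 := by
    intro x hx h0
    rw [mem_sphere_zero_iff_norm] at hx
    rw [h0, norm_zero] at hx
    exact zero_ne_one hx
  have hgne : ∀ x : V, x ≠ 0 → g x ≠ 0 := by
    intro x hx h0
    exact hx (g.map_eq_zero_iff.1 h0)
  refine ⟨Real.pi / L, div_pos Real.pi_pos hL, fun x => ‖g x‖⁻¹ • g x, ?_, ?_, ?_⟩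
  · intro x hx
    rw [mem_sphere_zero_iff_norm, norm_smul, norm_inv, norm_norm]
    exact inv_mul_cancel₀ (norm_ne_zero_iff.2 (hgne x (hne x hx)))
  · intro z hz
    have hz0 := hne z hz
    have hz1 : ‖z‖ = 1 := by rwa [mem_sphere_zero_iff_norm] at hz
    have hy : g.symm z ≠ 0 := by
      intro h0
      exact hz0 (g.symm.map_eq_zero_iff.1 h0)
    have hyn : ‖g.symm z‖ ≠ 0 := norm_ne_zero_iff.2 hy
    refine ⟨‖g.symm z‖⁻¹ • g.symm z, ?_, Or.inl ?_⟩
    · rw [mem_sphere_zero_iff_norm, norm_smul, norm_inv, norm_norm]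
      exact inv_mul_cancel₀ hyn
    · simp only [map_smul, LinearEquiv.apply_symm_apply, norm_smul, norm_inv, norm_norm, hz1,
        mul_one, inv_inv]
      rw [smul_smul, mul_inv_cancel₀ hyn, one_smul]
  · intro x hx y hy
    have hx1 : ‖x‖ = 1 := by rwa [mem_sphere_zero_iff_norm] at hx
    have hy1 : ‖y‖ = 1 := by rwa [mem_sphere_zero_iff_norm] at hy
    have h3 := hg x y (hne x hx) (hne y hy)
    simp only [hx1, hy1, inv_one, one_smul] at h3
    rw [h3]
    have hgx := norm_ne_zero_iff.2 (hgne x (hne x hx))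
    have hgy := norm_ne_zero_iff.2 (hgne y (hne y hy))
    have e1 : Real.pi / L * (L / Real.pi * Real.arccos (|inner ℝ (g x) (g y)| / (‖g x‖ * ‖g y‖)))
      = Real.arccos (|inner ℝ (g x) (g y)| / (‖g x‖ * ‖g y‖)) := by
      have := Real.pi_ne_zero
      have := hL.ne'
      field_simp
    rw [e1]
    congr 1
    rw [inner_smul_left, inner_smul_right, abs_mul, abs_mul]
    simp only [conj_trivial, abs_inv, abs_norm]
    field_simp

end Pool.Agent.W553.PMB
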