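import Pool.Agent.W553.PM.Sph

/-! Projective metric planes, affine part: second order contact of spheres with a line (end). -/

set_option autoImplicit false

namespace Pool.Agent.W553.PM.Sph

open Set Filter Topology Pool.Agent.W553.PM

lemma chain (f : ℕ → ℝ) (N : ℕ) (hN : 0 < N) (h : ∀ i < N, f i < f (i + 1)) : f 0 < f N := by
  have key : ∀ k, 1 ≤ k → k ≤ N → f 0 < f k := by
    intro k
    induction k with
    | zero => intro h1; omega
    | succ k ih =>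
      intro _ h2
      rcases Nat.eq_zero_or_pos k with h0 | h0
      · subst h0; exact h 0 (by omega)
      · exact (ih h0 (by omega)).trans (h k (by omega))
  exact key N hN le_rfl

theorem T_sph (hnc : S_ncont) (hlip : S_lip) : S_sph := by
  intro M d n hM hp hE h0 hn0 c hder s₁ s₂ hs₁ hs₁₂ hseg C₀ hC₀ ε hε
  have hc := hnc M d n hM hp
  set ε' := min ε 1 with hε'
  have hε'0 : 0 < ε' := lt_min hε one_pos
  have hε'1 : ε' ≤ 1 := min_le_right _ _
  have hε'ε : ε' ≤ ε := min_le_left _ _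
  obtain ⟨p₀, hp₀, hmain⟩ := main hM hp hc hlip h0 hE hn0 c hder s₁ s₂ hs₁ hseg C₀ hC₀ (ε' / 8)
    (by positivity)
  refine ⟨p₀, hp₀, fun p hp0 hpp s hs τ hτ => ?_⟩
  obtain ⟨hXM, hY⟩ := hmain p hp0 hpp s hs τ hτ
  have hmm : τ + mm n (0, τ) * s = τ - (n (0, τ) (0, 1)).2 * s := by unfold mm; ring
  rw [hmm] at hXM hY
  set X : P := (s, τ - (n (0, τ) (0, 1)).2 * s) with hX
  set Q := τ ^ 2 * (c + 1 / s) with hQ
  have hQ2 : τ ^ 2 / 2 * (1 / s + c) = Q / 2 := by rw [hQ]; ring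
  rw [hQ2]
  -- number of steps
  obtain ⟨N, hN⟩ := exists_nat_gt (8 / ε')
  have hN0 : (0:ℝ) < N := lt_trans (by positivity) hN
  have hN0' : 0 < N := by exact_mod_cast hN0
  have hN8 : 1 / (N:ℝ) ≤ ε' / 8 := by
    rw [div_lt_iff₀ hε'0] at hN
    rw [div_le_div_iff₀ hN0 (by norm_num)]
    linarith
  -- curve
  have bound : ∀ α β : ℝ, 0 ≤ α → α ≤ 3 / 2 → |β| ≤ 1 / 2 → ∀ θ : ℝ, 0 ≤ θ → θ ≤ 1 →
      |α * p * θ ^ 2 + β * p * θ| ≤ 2 * p := by
    intro α β hα0 hα hβ θ hθ0 hθ1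
    have h1 : |α * p * θ ^ 2| ≤ 3 / 2 * p := by
      rw [abs_of_nonneg (by positivity)]
      have h2 : α * p ≤ 3 / 2 * p := mul_le_mul_of_nonneg_right hα hp0.le
      have h3 : θ ^ 2 ≤ 1 := by nlinarith
      nlinarith [sq_nonneg θ, mul_nonneg hα0 hp0.le]
    have h2 : |β * p * θ| ≤ 1 / 2 * p := by
      rw [abs_mul, abs_mul, abs_of_pos hp0, abs_of_nonneg hθ0]
      have h3 : |β| * p ≤ 1 / 2 * p := mul_le_mul_of_nonneg_right hβ hp0.le
      nlinarith [mul_nonneg (abs_nonneg β) hp0.le]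
    calc |α * p * θ ^ 2 + β * p * θ| ≤ |α * p * θ ^ 2| + |β * p * θ| := abs_add_le _ _
      _ ≤ 2 * p := by linarith
  have hpM : ((p, 0) : P) ∈ M := by
    have := (hY p 1 (by rw [abs_of_pos hp0]; linarith) zero_le_one le_rfl).1
    simpa using this
  have hτM : ((0, τ) : P) ∈ M := by
    have := (hY 0 0 (by rw [abs_zero]; linarith) le_rfl zero_le_one).1
    simpa using this
  have frac0 : ∀ i : ℕ, (0:ℝ) ≤ (i:ℝ) / N := fun i => by positivity
  have frac1 : ∀ i : ℕ, i ≤ N → (i:ℝ) / N ≤ 1 := fun i hi => by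
    rw [div_le_one hN0]; exact_mod_cast hi
  have fracs : ∀ i : ℕ, ((i + 1 : ℕ) : ℝ) / N = (i:ℝ) / N + 1 / N := fun i => by
    push_cast; ring
  have hNi : (0:ℝ) < 1 / N := by positivity
  refine ⟨hXM, hpM, hτM, ?_, ?_⟩
  · intro hcase
    have hQb : Q ≤ 2 * (1 - ε') * p := by nlinarith
    -- case B
    set γ : ℝ → P := fun θ => ((1 - ε' / 2) * p * θ ^ 2 + (ε' / 2) * p * θ, τ * (1 - θ)) with hγ
    have hγM : ∀ θ : ℝ, 0 ≤ θ → θ ≤ 1 → |(1 - ε' / 2) * p * θ ^ 2 + (ε' / 2) * p * θ| ≤ 2 * p := by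
      intro θ h1 h2
      exact bound (1 - ε' / 2) (ε' / 2) (by linarith) (by linarith)
        (by rw [abs_of_pos (by positivity)]; linarith) θ h1 h2
    have step : ∀ i < N, (-d X (γ ((i:ℝ) / N))) < -d X (γ (((i + 1 : ℕ) : ℝ) / N)) := by
      intro i hi
      set θ := (i:ℝ) / N with hθ
      set θ' := ((i + 1 : ℕ) : ℝ) / N with hθ'
      have hθ0 : 0 ≤ θ := frac0 i
      have hθ'1 : θ' ≤ 1 := frac1 (i + 1) hi
      have hθθ' : θ' = θ + 1 / N := fracs i
      have hθ'0 : 0 ≤ θ' := by linarith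
      have hθ1 : θ ≤ 1 := by linarith
      obtain ⟨hZM, -⟩ := hY _ θ (hγM θ hθ0 hθ1) hθ0 hθ1
      obtain ⟨-, δ, hδ, hsep⟩ := hY _ θ' (hγM θ' hθ'0 hθ'1) hθ'0 hθ'1
      have h1 := hsep (γ θ) hZM (by
        rw [hγ]
        simp only
        have e : (1 - ε' / 2) * p * θ ^ 2 + ε' / 2 * p * θ -
            ((1 - ε' / 2) * p * θ' ^ 2 + ε' / 2 * p * θ') - δ * (τ * (1 - θ) - τ * (1 - θ')) =
            -((θ' - θ) * (p * ((1 - ε' / 2) * (θ + θ') + ε' / 2) + δ * τ)) := by ring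
        rw [e, neg_lt_zero]
        apply mul_pos (by linarith)
        have h2 := (abs_le.1 hδ).1
        have h3 : τ ^ 2 * θ' * (c + 1 / s) = Q * θ' := by rw [hQ]; ring
        rw [h3] at h2
        have h4 : Q * θ' ≤ 2 * (1 - ε') * p * θ' := mul_le_mul_of_nonneg_right hQb hθ'0
        have h5 : 2 * θ' - ε' / 8 ≤ θ + θ' := by linarith
        have h6 : (1 - ε' / 2) * (2 * θ' - ε' / 8) ≤ (1 - ε' / 2) * (θ + θ') :=
          mul_le_mul_of_nonneg_left h5 (by linarith)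
        have h7 : 2 * θ' - ε' * θ' - ε' / 8 + ε' / 2 ≤ (1 - ε' / 2) * (θ + θ') + ε' / 2 := by
          nlinarith
        have h8 : p * (2 * θ' - ε' * θ' - ε' / 8 + ε' / 2) ≤
            p * ((1 - ε' / 2) * (θ + θ') + ε' / 2) := mul_le_mul_of_nonneg_left h7 hp0.le
        have h9 : 0 ≤ ε' * θ' * p := by positivity
        have h10 : 0 < ε' * p := by positivity
        nlinarith)
      exact neg_lt_neg h1
    have := chain (fun i => -d X (γ ((i:ℝ) / N))) N hN0' step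
    simp only [Nat.cast_zero, zero_div, div_self hN0.ne'] at this
    have e0 : γ 0 = (0, τ) := by rw [hγ]; simp
    have e1 : γ 1 = (p, 0) := by rw [hγ]; ext <;> simp; ring
    rw [e0, e1] at this
    linarith
  · intro hcase
    have hQb : 2 * (1 + ε') * p ≤ Q := by nlinarith
    set γ : ℝ → P := fun θ => ((1 + ε' / 2) * p * θ ^ 2 + (-(ε' / 2)) * p * θ, τ * (1 - θ)) with hγ
    have hγM : ∀ θ : ℝ, 0 ≤ θ → θ ≤ 1 →
        |(1 + ε' / 2) * p * θ ^ 2 + (-(ε' / 2)) * p * θ| ≤ 2 * p := by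
      intro θ h1 h2
      exact bound (1 + ε' / 2) (-(ε' / 2)) (by linarith) (by linarith)
        (by rw [abs_neg, abs_of_pos (by positivity)]; linarith) θ h1 h2
    have step : ∀ i < N, d X (γ ((i:ℝ) / N)) < d X (γ (((i + 1 : ℕ) : ℝ) / N)) := by
      intro i hi
      set θ := (i:ℝ) / N with hθ
      set θ' := ((i + 1 : ℕ) : ℝ) / N with hθ'
      have hθ0 : 0 ≤ θ := frac0 i
      have hθ'1 : θ' ≤ 1 := frac1 (i + 1) hi
      have hθθ' : θ' = θ + 1 / N := fracs i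
      have hθ'0 : 0 ≤ θ' := by linarith
      have hθ1 : θ ≤ 1 := by linarith
      obtain ⟨-, δ, hδ, hsep⟩ := hY _ θ (hγM θ hθ0 hθ1) hθ0 hθ1
      obtain ⟨hZM, -⟩ := hY _ θ' (hγM θ' hθ'0 hθ'1) hθ'0 hθ'1
      apply hsep (γ θ') hZM
      rw [hγ]
      simp only
      have e : (1 + ε' / 2) * p * θ' ^ 2 + -(ε' / 2) * p * θ' -
          ((1 + ε' / 2) * p * θ ^ 2 + -(ε' / 2) * p * θ) - δ * (τ * (1 - θ') - τ * (1 - θ)) =
          (θ' - θ) * (p * ((1 + ε' / 2) * (θ + θ') - ε' / 2) + δ * τ) := by ring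
      rw [e]
      apply mul_neg_of_pos_of_neg (by linarith)
      have h2 := (abs_le.1 hδ).2
      have h3 : τ ^ 2 * θ * (c + 1 / s) = Q * θ := by rw [hQ]; ring
      rw [h3] at h2
      have h4 : 2 * (1 + ε') * p * θ ≤ Q * θ := mul_le_mul_of_nonneg_right hQb hθ0
      have h5 : θ + θ' ≤ 2 * θ + ε' / 8 := by linarith
      have h6 : (1 + ε' / 2) * (θ + θ') ≤ (1 + ε' / 2) * (2 * θ + ε' / 8) :=
        mul_le_mul_of_nonneg_left h5 (by linarith)
      have h7 : (1 + ε' / 2) * (θ + θ') - ε' / 2 ≤ 2 * θ + ε' * θ - 5 * ε' / 16 := by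
        nlinarith
      have h8 : p * ((1 + ε' / 2) * (θ + θ') - ε' / 2) ≤
          p * (2 * θ + ε' * θ - 5 * ε' / 16) := mul_le_mul_of_nonneg_left h7 hp0.le
      have h9 : 0 ≤ ε' * θ * p := by positivity
      have h10 : 0 < ε' * p := by positivity
      nlinarith
    have := chain (fun i => d X (γ ((i:ℝ) / N))) N hN0' step
    simp only [Nat.cast_zero, zero_div, div_self hN0.ne'] at this
    have e0 : γ 0 = (0, τ) := by rw [hγ]; simp
    have e1 : γ 1 = (p, 0) := by rw [hγ]; ext <;> simp; ring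
    rw [e0, e1] at this
    exact this

end Pool.Agent.W553.PM.Sph
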