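import Pool.Agent.W553.PM.PartA
import Pool.Agent.W553.PM.PartB
import Pool.Agent.W29.PM.Rev
import Pool.Agent.W193.PM.Ray
import Pool.Agent.W193.PM.Perp
import Pool.Agent.W352.PM.NCONT
import Pool.Agent.W191.PM.Contact
import Pool.Agent.W553.PM.Compare
import Pool.Agent.W741.PM.Micro
import Pool.Agent.W925.PM.Clim
import Pool.Agent.W542.PM.EllAlg
import Pool.Agent.W925.PM.Lip
import Pool.Agent.W553.PM.Sph2
import Pool.Agent.W741.PM.Macro
import Pool.Agent.W925.PM.Aff
import Pool.Agent.W925.PM.Deriv0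
import Pool.Agent.W925.PM.Ell
import Pool.Agent.W925.PM.Univ
import Pool.Agent.W193.PM.Dir
import Pool.Agent.W597.PM.Norm
import Pool.Agent.W597.PM.Norm0
import Pool.Agent.W509.PMB.Circ
import Pool.Agent.W356.PMB.Le
import Pool.Agent.W239.PMB.Sector
import Pool.Agent.W391.PMB.Pole
import Pool.Agent.W391.PMB.Bij
import Pool.Agent.W356.PMB.Form
import Pool.Agent.W925.PMB.Lin
import Pool.Agent.W356.PMB.Std
import Pool.Agent.W391.PMB.Trans
import Pool.Agent.W356.PMB.Fin

/-! Projective metric planes: assembly of all parts. -/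

set_option autoImplicit false

namespace Pool.Agent.W553.PM

theorem A_rev : S_rev := Pool.Agent.W29.PM.T_rev
theorem A_ray : S_ray := Pool.Agent.W193.PM.T_ray A_rev
theorem A_perp : S_perp := Pool.Agent.W193.PM.T_perp A_ray
theorem A_ncont : S_ncont := Pool.Agent.W352.PM.T_ncont
theorem A_nhom : S_nhom := Pool.Agent.W352.PM.T_nhom
theorem A_small : S_small := Pool.Agent.W191.PM.Contact.T_small
theorem A_contact : S_contact := Pool.Agent.W191.PM.Contact.T_contact
theorem A_danskin : S_danskin := Cmp.T_danskin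
theorem A_compare : S_compare := Cmp.T_compare A_small A_danskin
theorem A_G : S_G := Cmp.T_G A_contact A_compare A_nhom
theorem A_micro : S_micro := Pool.Agent.W741.PM.T_micro A_contact A_compare A_G
theorem A_impl : S_impl := Pool.Agent.W925.PM.T_impl
theorem A_clim : S_clim := Pool.Agent.W925.PM.T_clim
theorem A_ellalg : S_ellalg := W542EA.T_ellalg
theorem A_lip : S_lip := Pool.Agent.W925.PM.T_lip
theorem A_sph : S_sph := Sph.T_sph A_ncont A_lip
theorem A_macro : S_macro := Pool.Agent.W741.PM.T_macro A_sph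
theorem A_c0 : S_c0 := Pool.Agent.W741.PM.T_c0 A_macro A_impl A_clim
theorem A_aff : S_aff := Pool.Agent.W925.PM.T_aff
theorem A_deriv0 : S_deriv0 := Pool.Agent.W925.PM.T_deriv0 A_aff A_c0 A_nhom
theorem A_ell : S_ell :=
  Pool.Agent.W925.PM.Ell.T_ell A_ncont A_nhom A_G A_micro A_impl A_clim A_ellalg
theorem A_const : S_const := Pool.Agent.W193.PM.T_const A_ncont A_nhom A_lip A_ell A_deriv0
theorem A_dir : S_dir := Pool.Agent.W193.PM.T_dir
theorem A_norm0 : S_norm0 := Pool.Agent.W597.PM.T_norm0'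
theorem A_norm : S_norm := Pool.Agent.W597.PM.T_norm A_norm0 A_aff
theorem A_univ0 : S_univ0 := Pool.Agent.W925.PM.T_univ0
theorem A_finA : S_finA :=
  Pool.Agent.W925.PM.T_finA A_perp A_ell A_const A_dir A_norm

end Pool.Agent.W553.PM

namespace Pool.Agent.W553.PMB

theorem B_circ : S_circ := Pool.Agent.W509.PMB.T_circ
theorem B_le : S_le := Pool.Agent.W356.PMB.T_le
theorem B_foot : S_foot := Pool.Agent.W356.PMB.T_foot B_le
theorem B_sector : S_sector := Pool.Agent.W239.PMB.Sector.T_sector B_le B_foot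
theorem B_pole : S_pole := Pool.Agent.W391.PMB.T_pole B_le B_foot B_sector
theorem B_bij : S_bij := Pool.Agent.W391.PMB.T_bij B_le B_pole
theorem B_form : S_form := Pool.Agent.W356.PMB.T_form
theorem B_lin : S_lin := Pool.Agent.W925.PMB.T_lin
theorem B_std : S_std := Pool.Agent.W356.PMB.std'
theorem B_transB : S_transB := Pool.Agent.W391.PMB.Tr.T_transB B_circ
theorem B_finB : S_finB := Pool.Agent.W356.PMB.T_finB B_pole B_bij B_form B_lin B_std

end Pool.Agent.W553.PMB
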