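import Pool.Agent.W553.PM.Stm

/-! Projective metric planes, affine part: transfer from `EuclideanSpace ℝ (Fin 2)`. -/

set_option autoImplicit false

namespace Pool.Agent.W553.PM

open Set Filter Topology

abbrev E2 := EuclideanSpace ℝ (Fin 2)

noncomputable def Te : P ≃L[ℝ] E2 :=
  ((EuclideanSpace.equiv (Fin 2) ℝ).trans (ContinuousLinearEquiv.finTwoArrow ℝ ℝ)).symm

lemma Te_zero (x : P) : Te x 0 = x.1 := by
  simp [Te]

lemma Te_one (x : P) : Te x 1 = x.2 := by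
  simp [Te]

lemma Te_line {O u : P} (hu : u ≠ 0) (ε : ℝ) (hε : ε ≠ 0) (X : P) :
    Te X ∈ affineSpan ℝ {Te O, Te (O + ε • u)} ↔ X ∈ Ln O u := by
  rw [mem_affineSpan_pair_iff_exists_lineMap_eq]
  constructor
  · rintro ⟨r, hr⟩
    refine ⟨r * ε, ?_⟩
    apply Te.injective
    rw [← hr, AffineMap.lineMap_apply]
    simp only [map_add, map_smul, vsub_eq_sub, vadd_eq_add]
    module
  · rintro ⟨t, ht⟩
    refine ⟨t / ε, ?_⟩
    rw [ht, AffineMap.lineMap_apply]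
    simp only [map_add, map_smul, vsub_eq_sub, vadd_eq_add]
    rw [add_sub_cancel_left, smul_smul, div_mul_cancel₀ _ hε, add_comm]

lemma Te_hL (M : Set E2) (d : E2 → E2 → ℝ) {O u : P} (hu : u ≠ 0) (ε : ℝ) (hε : ε ≠ 0) (X : P) :
    sInf ((fun Y => d (Te X) Y) '' ((affineSpan ℝ {Te O, Te (O + ε • u)} : Set E2) ∩ M)) =
      hL (Te ⁻¹' M) (fun x y => d (Te x) (Te y)) O u X := by
  unfold hL
  congr 1
  ext r
  simp only [Set.mem_image, Set.mem_inter_iff, Set.mem_preimage]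
  constructor
  · rintro ⟨Y, ⟨h1, h2⟩, rfl⟩
    obtain ⟨Z, rfl⟩ := Te.surjective Y
    exact ⟨Z, ⟨(Te_line hu ε hε Z).1 h1, h2⟩, rfl⟩
  · rintro ⟨Z, ⟨h1, h2⟩, rfl⟩
    exact ⟨Te Z, ⟨(Te_line hu ε hε Z).2 h1, h2⟩, rfl⟩

lemma dt_ne_of_linInd {b c : P} (h : LinearIndependent ℝ ![Te b, Te c]) : dt b c ≠ 0 := by
  intro h0
  rw [LinearIndependent.pair_iff] at h
  have key : ∀ s t : ℝ, s • b + t • c = 0 → s = 0 ∧ t = 0 := by
    intro s t hst
    apply h s t
    rw [← map_smul, ← map_smul, ← map_add, hst, map_zero]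
  unfold dt at h0
  have h1 := key c.1 (-b.1) (by
    ext
    · simp; ring
    · simp; linarith)
  have h2 := key c.2 (-b.2) (by
    ext
    · simp; linarith
    · simp; ring)
  have h3 := key 1 1 (by
    ext
    · simp; linarith [h1.1, h1.2]
    · simp; linarith [h2.1, h2.2])
  exact one_ne_zero h3.1

lemma not_collinear {x y z : P} (h : dt (y - x) (z - x) ≠ 0) :
    ¬ Collinear ℝ ({Te x, Te y, Te z} : Set E2) := by
  intro hc
  rw [collinear_iff_of_mem (p₀ := Te x) (by simp)] at hc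
  obtain ⟨v, hv⟩ := hc
  obtain ⟨v', rfl⟩ := Te.surjective v
  obtain ⟨r, hr⟩ := hv (Te y) (by simp)
  obtain ⟨s, hs⟩ := hv (Te z) (by simp)
  have hr' : y = r • v' + x := by
    apply Te.injective; rw [hr]; simp [vadd_eq_add]
  have hs' : z = s • v' + x := by
    apply Te.injective; rw [hs]; simp [vadd_eq_add]
  apply h
  rw [hr', hs']
  simp only [dt, add_sub_cancel_right, Prod.smul_fst, Prod.smul_snd, smul_eq_mul]
  ring

lemma pmet_transfer (M : Set E2) (d : E2 → E2 → ℝ) (hop : IsOpen M) (hcv : Convex ℝ M)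
    (hne : M.Nonempty)
    (h0 : ∀ x ∈ M, ∀ y ∈ M, (d x y = 0 ↔ x = y))
    (hs : ∀ x ∈ M, ∀ y ∈ M, d x y = d y x)
    (ht : ∀ x ∈ M, ∀ y ∈ M, ∀ z ∈ M, d x z ≤ d x y + d y z)
    (hb : ∀ x ∈ M, Filter.HasBasis (nhdsWithin x M) (fun r : ℝ => 0 < r)
          (fun r => {y | y ∈ M ∧ d x y < r}))
    (hseg : ∀ x ∈ M, ∀ y ∈ M, ∀ z ∈ M, y ∈ segment ℝ x z → d x z = d x y + d y z)
    (hstr : ∀ x ∈ M, ∀ y ∈ M, ∀ z ∈ M,
          ¬ Collinear ℝ ({x, y, z} : Set (EuclideanSpace ℝ (Fin 2))) →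
          d x z < d x y + d y z)
    (hcon : ∀ p ∈ M, ∀ q ∈ M, p ≠ q → ∀ F ∈ M, F ∉ affineSpan ℝ {p, q} →
          ∃ a b c : EuclideanSpace ℝ (Fin 2), LinearIndependent ℝ ![b, c] ∧
            {X | X ∈ M ∧ d X F = sInf ((fun Y => d X Y) ''
                ((affineSpan ℝ {p, q} : Set (EuclideanSpace ℝ (Fin 2))) ∩ M))}
              = M ∩ Set.range (fun t : ℝ => a + t • b + (t ^ 2) • c)) :
    PMet (Te ⁻¹' M) (fun x y => d (Te x) (Te y)) where
  opn := hop.preimage Te.continuous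
  cvx := hcv.linear_preimage Te.toLinearEquiv.toLinearMap
  ne := by
    obtain ⟨x, hx⟩ := hne
    obtain ⟨y, rfl⟩ := Te.surjective x
    exact ⟨y, hx⟩
  zero := by
    intro x hx y hy
    rw [h0 _ hx _ hy]
    exact Te.injective.eq_iff
  symm := fun x hx y hy => hs _ hx _ hy
  tri := fun x hx y hy z hz => ht _ hx _ hy _ hz
  basis := by
    intro x hx
    have h1 := (hb (Te x) hx).comap Te
    have h2 : Filter.comap Te (nhdsWithin (Te x) M) = nhdsWithin x (Te ⁻¹' M) := by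
      rw [nhdsWithin, nhdsWithin, Filter.comap_inf, Filter.comap_principal]
      congr 1
      exact (Te.toHomeomorph.isInducing.nhds_eq_comap x).symm
    rw [h2] at h1
    exact h1
  seg := by
    intro x hx y hy z hz hyz
    apply hseg _ hx _ hy _ hz
    obtain ⟨a, b, ha, hb', hab, rfl⟩ := hyz
    exact ⟨a, b, ha, hb', hab, by simp⟩
  strict := fun x hx y hy z hz h => hstr _ hx _ hy _ hz (not_collinear h)
  conic := by
    intro O hO u hu F hF hFL
    -- choose ε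
    have hc : ContinuousAt (fun ε : ℝ => Te (O + ε • u)) 0 := by fun_prop
    have hM : ∀ᶠ ε in 𝓝 (0:ℝ), Te (O + ε • u) ∈ M := by
      apply hc.eventually_mem
      simpa using hop.mem_nhds hO
    obtain ⟨ε, hε, hεM⟩ : ∃ ε : ℝ, 0 < ε ∧ Te (O + ε • u) ∈ M := by
      have h1 : ∀ᶠ ε in 𝓝[>] (0:ℝ), Te (O + ε • u) ∈ M := hM.filter_mono nhdsWithin_le_nhds
      obtain ⟨ε, h2, h3⟩ := (h1.and self_mem_nhdsWithin).exists
      exact ⟨ε, h3, h2⟩
    have hpq : Te O ≠ Te (O + ε • u) := by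
      intro h
      have := Te.injective h
      rw [left_eq_add] at this
      rcases smul_eq_zero.1 this with h | h
      · exact hε.ne' h
      · exact hu h
    have hFn : Te F ∉ affineSpan ℝ {Te O, Te (O + ε • u)} := by
      rw [Te_line hu ε hε.ne']; exact hFL
    obtain ⟨a, b, c, hbc, hset⟩ := hcon (Te O) hO (Te (O + ε • u)) hεM hpq (Te F) hF hFn
    obtain ⟨a, rfl⟩ := Te.surjective a
    obtain ⟨b, rfl⟩ := Te.surjective b
    obtain ⟨c, rfl⟩ := Te.surjective c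
    refine ⟨a, b, c, dt_ne_of_linInd hbc, ?_⟩
    ext X
    have hX := Set.ext_iff.1 hset (Te X)
    simp only [Set.mem_setOf_eq, Set.mem_inter_iff] at hX
    rw [Te_hL M d hu ε hε.ne' X] at hX
    simp only [Set.mem_setOf_eq, Set.mem_inter_iff, Set.mem_preimage]
    rw [hX]
    apply and_congr_right
    intro _
    unfold Par
    constructor
    · rintro ⟨t, h⟩
      refine ⟨t, Te.injective ?_⟩
      simpa using h
    · rintro ⟨t, h⟩
      refine ⟨t, ?_⟩
      rw [← h]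
      simp

theorem partA (hfin : S_finA) (M : Set E2) (d : E2 → E2 → ℝ) (hop : IsOpen M) (hcv : Convex ℝ M)
    (hne : M.Nonempty)
    (h0 : ∀ x ∈ M, ∀ y ∈ M, (d x y = 0 ↔ x = y))
    (hs : ∀ x ∈ M, ∀ y ∈ M, d x y = d y x)
    (ht : ∀ x ∈ M, ∀ y ∈ M, ∀ z ∈ M, d x z ≤ d x y + d y z)
    (hb : ∀ x ∈ M, Filter.HasBasis (nhdsWithin x M) (fun r : ℝ => 0 < r)
          (fun r => {y | y ∈ M ∧ d x y < r}))
    (hseg : ∀ x ∈ M, ∀ y ∈ M, ∀ z ∈ M, y ∈ segment ℝ x z → d x z = d x y + d y z)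
    (hstr : ∀ x ∈ M, ∀ y ∈ M, ∀ z ∈ M,
          ¬ Collinear ℝ ({x, y, z} : Set (EuclideanSpace ℝ (Fin 2))) →
          d x z < d x y + d y z)
    (hcon : ∀ p ∈ M, ∀ q ∈ M, p ≠ q → ∀ F ∈ M, F ∉ affineSpan ℝ {p, q} →
          ∃ a b c : EuclideanSpace ℝ (Fin 2), LinearIndependent ℝ ![b, c] ∧
            {X | X ∈ M ∧ d X F = sInf ((fun Y => d X Y) ''
                ((affineSpan ℝ {p, q} : Set (EuclideanSpace ℝ (Fin 2))) ∩ M))}
              = M ∩ Set.range (fun t : ℝ => a + t • b + (t ^ 2) • c)) :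
    ∃ f : E2 → E2, Set.BijOn f M Set.univ ∧ ∀ x ∈ M, ∀ y ∈ M, (1:ℝ) * d x y = dist (f x) (f y) := by
  obtain ⟨hM, A, B, C, hA, hD, hd⟩ :=
    hfin _ _ (pmet_transfer M d hop hcv hne h0 hs ht hb hseg hstr hcon)
  have hMu : M = univ := by
    ext x
    simp only [Set.mem_univ, iff_true]
    obtain ⟨y, rfl⟩ := Te.surjective x
    have : y ∈ Te ⁻¹' M := by rw [hM]; trivial
    exact this
  have hC : 0 < C - B ^ 2 / A := by
    have h1 : C - B ^ 2 / A = (A * C - B ^ 2) / A := by field_simp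
    rw [h1]
    positivity
  set α := √A with hα
  set γ := √(C - B ^ 2 / A) with hγ
  have hα0 : 0 < α := Real.sqrt_pos.2 hA
  have hγ0 : 0 < γ := Real.sqrt_pos.2 hC
  have hα2 : α ^ 2 = A := Real.sq_sqrt hA.le
  have hγ2 : γ ^ 2 = C - B ^ 2 / A := Real.sq_sqrt hC.le
  set f : E2 → E2 := fun x => Te (α * x 0 + (B / α) * x 1, γ * x 1) with hf
  have f0 : ∀ x, f x 0 = α * x 0 + (B / α) * x 1 := fun x => by rw [hf]; simp only; rw [Te_zero]
  have f1 : ∀ x, f x 1 = γ * x 1 := fun x => by rw [hf]; simp only; rw [Te_one]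
  refine ⟨f, ?_, ?_⟩
  · rw [hMu, Set.bijOn_univ]
    constructor
    · intro x y hxy
      have h1 : f x 1 = f y 1 := by rw [hxy]
      have h2 : f x 0 = f y 0 := by rw [hxy]
      rw [f1, f1] at h1
      rw [f0, f0] at h2
      have h3 : x 1 = y 1 := mul_left_cancel₀ hγ0.ne' h1
      rw [h3] at h2
      have h4 : x 0 = y 0 := mul_left_cancel₀ hα0.ne' (add_right_cancel h2)
      ext i
      fin_cases i
      · exact h4
      · exact h3
    · intro z
      refine ⟨Te ((z 0 - (B / α) * (z 1 / γ)) / α, z 1 / γ), ?_⟩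
      ext i
      fin_cases i
      · show f _ 0 = z 0
        rw [f0, Te_zero, Te_one]
        field_simp
        ring
      · show f _ 1 = z 1
        rw [f1, Te_one]
        field_simp
  · intro x _ y _
    obtain ⟨x, rfl⟩ := Te.surjective x
    obtain ⟨y, rfl⟩ := Te.surjective y
    rw [one_mul]
    have h1 : d (Te x) (Te y) = √(bf A B C (x - y) (x - y)) := hd x y
    rw [h1, EuclideanSpace.dist_eq, Fin.sum_univ_two, f0, f0, f1, f1, Te_zero, Te_zero, Te_one,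
      Te_one, Real.dist_eq, Real.dist_eq, sq_abs, sq_abs]
    congr 1
    unfold bf
    simp only [Prod.fst_sub, Prod.snd_sub]
    have e1 : α * x.1 + B / α * x.2 - (α * y.1 + B / α * y.2) =
      α * (x.1 - y.1) + B / α * (x.2 - y.2) := by ring
    have e2 : γ * x.2 - γ * y.2 = γ * (x.2 - y.2) := by ring
    rw [e1, e2, mul_pow γ, hγ2]
    have e3 : (α * (x.1 - y.1) + B / α * (x.2 - y.2)) ^ 2 =
      α ^ 2 * (x.1 - y.1) ^ 2 + 2 * B * (x.1 - y.1) * (x.2 - y.2) +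
        B ^ 2 / α ^ 2 * (x.2 - y.2) ^ 2 := by
      field_simp
      ring
    rw [e3, hα2]
    ring

end Pool.Agent.W553.PM
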