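import Pool.Agent.W553.PM.Defs

/-! Basic facts on projective metric planes: continuity of the distance and of the distance to a
line. -/

set_option autoImplicit false

namespace Pool.Agent.W553.PM

open Set Filter Topology

variable {M : Set P} {d : P → P → ℝ}

theorem PMet.self (H : PMet M d) {x : P} (hx : x ∈ M) : d x x = 0 := (H.zero x hx x hx).2 rfl

theorem PMet.nonneg (H : PMet M d) {x y : P} (hx : x ∈ M) (hy : y ∈ M) : 0 ≤ d x y := by
  have h1 := H.tri x hx y hy x hx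
  rw [H.self hx, H.symm y hy x hx] at h1
  linarith

theorem PMet.pos (H : PMet M d) {x y : P} (hx : x ∈ M) (hy : y ∈ M) (h : x ≠ y) : 0 < d x y :=
  lt_of_le_of_ne (H.nonneg hx hy) (fun h0 => h ((H.zero x hx y hy).1 h0.symm))

theorem PMet.abs_sub (H : PMet M d) {x y z : P} (hx : x ∈ M) (hy : y ∈ M) (hz : z ∈ M) :
    |d x z - d y z| ≤ d x y := by
  rw [abs_le]
  have h1 := H.tri x hx y hy z hz
  have h2 := H.tri y hy x hx z hz
  rw [H.symm y hy x hx] at h2
  constructor <;> linarith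

/-- `d x ·` is small near `x`. -/
theorem PMet.tendsto (H : PMet M d) {x : P} (hx : x ∈ M) :
    Tendsto (fun y => d x y) (nhdsWithin x M) (nhds 0) := by
  rw [Metric.tendsto_nhds]
  intro ε hε
  have h1 := (H.basis x hx).mem_of_mem hε
  filter_upwards [h1] with y hy
  rw [Real.dist_eq, sub_zero, abs_of_nonneg (H.nonneg hx hy.1)]
  exact hy.2

theorem PMet.cont (H : PMet M d) : ContinuousOn (fun p : P × P => d p.1 p.2) (M ×ˢ M) := by
  rintro ⟨x, y⟩ ⟨hx, hy⟩
  simp only at hx hy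
  have h1 : Tendsto (fun p : P × P => d x p.1) (nhdsWithin (x, y) (M ×ˢ M)) (nhds 0) := by
    refine (H.tendsto hx).comp ?_
    refine tendsto_nhdsWithin_iff.2 ⟨?_, ?_⟩
    · exact (continuous_fst.tendsto (x, y)).mono_left nhdsWithin_le_nhds
    · filter_upwards [self_mem_nhdsWithin] with p hp using hp.1
  have h2 : Tendsto (fun p : P × P => d y p.2) (nhdsWithin (x, y) (M ×ˢ M)) (nhds 0) := by
    refine (H.tendsto hy).comp ?_
    refine tendsto_nhdsWithin_iff.2 ⟨?_, ?_⟩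
    · exact (continuous_snd.tendsto (x, y)).mono_left nhdsWithin_le_nhds
    · filter_upwards [self_mem_nhdsWithin] with p hp using hp.2
  have h3 : Tendsto (fun p : P × P => d x p.1 + d y p.2) (nhdsWithin (x, y) (M ×ˢ M))
      (nhds 0) := by simpa using h1.add h2
  rw [ContinuousWithinAt, tendsto_iff_norm_sub_tendsto_zero]
  refine squeeze_zero' (Eventually.of_forall fun p => norm_nonneg _) ?_ h3
  filter_upwards [self_mem_nhdsWithin] with p hp
  have h4 := H.abs_sub hp.1 hx hp.2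
  have h5 := H.abs_sub hp.2 hy hx
  rw [H.symm p.2 hp.2 x hx, H.symm y hy x hx] at h5
  rw [Real.norm_eq_abs]
  have h6 : d p.1 p.2 - d x y = (d p.1 p.2 - d x p.2) + (d x p.2 - d x y) := by ring
  rw [h6]
  refine (abs_add_le _ _).trans ?_
  rw [H.symm x hx p.1 hp.1, H.symm y hy p.2 hp.2]
  linarith

theorem PMet.cont_right (H : PMet M d) {x : P} (hx : x ∈ M) :
    ContinuousOn (fun y => d x y) M :=
  H.cont.comp (continuousOn_const.prodMk continuousOn_id) (fun _ hy => ⟨hx, hy⟩)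

theorem PMet.cont_left (H : PMet M d) {x : P} (hx : x ∈ M) :
    ContinuousOn (fun y => d y x) M :=
  H.cont.comp (continuousOn_id.prodMk continuousOn_const) (fun _ hy => ⟨hy, hx⟩)

theorem self_mem_Ln (O u : P) : O ∈ Ln O u := ⟨0, by simp⟩

theorem hL_bdd (H : PMet M d) {O u X : P} (hX : X ∈ M) :
    BddBelow ((fun Y => d X Y) '' (Ln O u ∩ M)) := by
  refine ⟨0, ?_⟩
  rintro _ ⟨Y, hY, rfl⟩
  exact H.nonneg hX hY.2

theorem hL_le (H : PMet M d) {O u X Y : P} (hX : X ∈ M) (hY : Y ∈ M) (hYL : Y ∈ Ln O u) :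
    hL M d O u X ≤ d X Y :=
  csInf_le (hL_bdd H hX) ⟨Y, ⟨hYL, hY⟩, rfl⟩

theorem hL_le_t (H : PMet M d) {O u X : P} (hX : X ∈ M) {t : ℝ} (ht : O + t • u ∈ M) :
    hL M d O u X ≤ d X (O + t • u) := hL_le H hX ht ⟨t, rfl⟩

theorem le_hL {O u X : P} (hO : O ∈ M) {r : ℝ}
    (h : ∀ t : ℝ, O + t • u ∈ M → r ≤ d X (O + t • u)) : r ≤ hL M d O u X := by
  refine le_csInf ⟨_, O, ⟨self_mem_Ln O u, hO⟩, rfl⟩ ?_
  rintro _ ⟨Y, ⟨⟨t, rfl⟩, hY⟩, rfl⟩
  exact h t hY

theorem hL_nonneg (H : PMet M d) {O u X : P} (hO : O ∈ M) (hX : X ∈ M) :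
    0 ≤ hL M d O u X := le_hL hO fun _ ht => H.nonneg hX ht

theorem hL_lip (H : PMet M d) {O u X X' : P} (hO : O ∈ M) (hX : X ∈ M) (hX' : X' ∈ M) :
    hL M d O u X ≤ d X X' + hL M d O u X' := by
  have : hL M d O u X - d X X' ≤ hL M d O u X' := by
    refine le_hL hO fun t ht => ?_
    have h1 := hL_le_t H hX ht
    have h2 := H.tri X hX X' hX' _ ht
    linarith
  linarith

theorem hL_zero (H : PMet M d) {O u X : P} (hO : O ∈ M) (hX : X ∈ M) (hXL : X ∈ Ln O u) :
    hL M d O u X = 0 := by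
  refine le_antisymm ?_ (hL_nonneg H hO hX)
  rw [← H.self hX]
  exact hL_le H hX hX hXL

theorem Ln_closed (O u : P) : IsClosed (Ln O u) := by
  have : Ln O u = (fun X => X - O) ⁻¹' (Submodule.span ℝ {u} : Submodule ℝ P) := by
    ext X
    simp only [Ln, mem_setOf_eq, mem_preimage, SetLike.mem_coe, Submodule.mem_span_singleton]
    constructor
    · rintro ⟨t, rfl⟩
      exact ⟨t, by simp⟩
    · rintro ⟨t, ht⟩
      exact ⟨t, by rw [ht]; abel⟩
  rw [this]
  exact (Submodule.closed_of_finiteDimensional _).preimage (continuous_id.sub continuous_const)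

theorem hL_pos (H : PMet M d) {O u X : P} (hO : O ∈ M) (hX : X ∈ M) (hXL : X ∉ Ln O u) :
    0 < hL M d O u X := by
  have h1 : (Ln O u)ᶜ ∈ nhdsWithin X M :=
    nhdsWithin_le_nhds ((Ln_closed O u).isOpen_compl.mem_nhds hXL)
  obtain ⟨r, hr, hr2⟩ := (H.basis X hX).mem_iff.1 h1
  refine lt_of_lt_of_le hr (le_hL hO fun t ht => ?_)
  by_contra hlt
  push Not at hlt
  exact hr2 ⟨ht, hlt⟩ ⟨t, rfl⟩

theorem hL_cont (H : PMet M d) {O u : P} (hO : O ∈ M) : ContinuousOn (hL M d O u) M := by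
  intro x hx
  rw [ContinuousWithinAt, tendsto_iff_norm_sub_tendsto_zero]
  refine squeeze_zero' (Eventually.of_forall fun p => norm_nonneg _) ?_ (H.tendsto hx)
  filter_upwards [self_mem_nhdsWithin] with y hy
  rw [Real.norm_eq_abs, abs_le]
  have h1 := hL_lip H (u := u) hO hx hy
  have h2 := hL_lip H (u := u) hO hy hx
  rw [H.symm y hy x hx] at h2
  constructor <;> linarith

end Pool.Agent.W553.PM
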