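import Mathlib

/-! Projective metric planes (problem MP_ec5bc9_gt): definitions for the affine part. -/

set_option autoImplicit false

namespace Pool.Agent.W553.PM

/-- the affine plane -/
abbrev P := ℝ × ℝ

/-- determinant -/
def dt (u v : P) : ℝ := u.1 * v.2 - u.2 * v.1

/-- standard scalar product -/
def ip (u v : P) : ℝ := u.1 * v.1 + u.2 * v.2

/-- the line through `O` with direction `u` -/
def Ln (O u : P) : Set P := {X | ∃ t : ℝ, X = O + t • u}

/-- distance of `X` to the geodesic line `Ln O u ∩ M` -/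
noncomputable def hL (M : Set P) (d : P → P → ℝ) (O u X : P) : ℝ :=
  sInf ((fun Y => d X Y) '' (Ln O u ∩ M))

/-- the parabola `t ↦ a + t b + t² c` -/
def Par (a b c : P) : Set P := Set.range (fun t : ℝ => a + t • b + (t ^ 2) • c)

/-- A projective metric plane of affine type all of whose parabolic conics are parabolas. -/
structure PMet (M : Set P) (d : P → P → ℝ) : Prop where
  opn : IsOpen M
  cvx : Convex ℝ M
  ne : M.Nonempty
  zero : ∀ x ∈ M, ∀ y ∈ M, (d x y = 0 ↔ x = y)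
  symm : ∀ x ∈ M, ∀ y ∈ M, d x y = d y x
  tri : ∀ x ∈ M, ∀ y ∈ M, ∀ z ∈ M, d x z ≤ d x y + d y z
  basis : ∀ x ∈ M, Filter.HasBasis (nhdsWithin x M) (fun r : ℝ => 0 < r)
    (fun r => {y | y ∈ M ∧ d x y < r})
  seg : ∀ x ∈ M, ∀ y ∈ M, ∀ z ∈ M, y ∈ segment ℝ x z → d x z = d x y + d y z
  strict : ∀ x ∈ M, ∀ y ∈ M, ∀ z ∈ M, dt (y - x) (z - x) ≠ 0 → d x z < d x y + d y z
  conic : ∀ O ∈ M, ∀ u : P, u ≠ 0 → ∀ F ∈ M, F ∉ Ln O u →
    ∃ a b c : P, dt b c ≠ 0 ∧ {X | X ∈ M ∧ d X F = hL M d O u X} = M ∩ Par a b c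

/-- `n O u` is the direction of the perpendicular at `O` to the line with direction `u`,
normalised by `det (u, n O u) = 1`: all points of the line through `O` with direction `n O u`
(inside `M`) have `O` as their unique nearest point on `Ln O u`. -/
structure Perp (M : Set P) (d : P → P → ℝ) (n : P → P → P) : Prop where
  n1 : ∀ O ∈ M, ∀ u : P, u ≠ 0 → dt u (n O u) = 1
  n2 : ∀ O ∈ M, ∀ u : P, u ≠ 0 → ∀ l t : ℝ, t ≠ 0 → O + l • n O u ∈ M → O + t • u ∈ M →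
    d (O + l • n O u) O < d (O + l • n O u) (O + t • u)
  n3 : ∀ O ∈ M, ∀ u : P, u ≠ 0 → ∀ X ∈ M,
    (∀ t : ℝ, O + t • u ∈ M → d X O ≤ d X (O + t • u)) → ∃ l : ℝ, X = O + l • n O u

/-- unit vector of angle `φ` -/
noncomputable def ee (φ : ℝ) : P := (Real.cos φ, Real.sin φ)

/-- `ee φ` rotated by a right angle -/
noncomputable def ww (φ : ℝ) : P := (-Real.sin φ, Real.cos φ)

/-- `- n Y (ww φ) = ee φ + TT n Y φ • ww φ` -/
noncomputable def TT (n : P → P → P) (Y : P) (φ : ℝ) : ℝ := - ip (ww φ) (n Y (ww φ))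

/-- contact direction: the perpendicular at `Y` to the line of direction `ww φ`, normalised by
`ip (ee φ) · = 1` -/
noncomputable def aa (n : P → P → P) (Y : P) (φ : ℝ) : P := ee φ + TT n Y φ • ww φ

/-- `Y φ` is the contact point, in direction `ee φ`, of the closed ball of radius `r` around
`X`. -/
structure Contact (M : Set P) (d : P → P → ℝ) (n : P → P → P) (X : P) (r : ℝ) (Y : ℝ → P) :
    Prop where
  cont : Continuous Y
  mem : ∀ φ, Y φ ∈ M
  dst : ∀ φ, d X (Y φ) = r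
  max : ∀ φ, ∀ Z ∈ M, d X Z ≤ r → ip (ee φ) Z ≤ ip (ee φ) (Y φ)
  uniq : ∀ φ, ∀ Z ∈ M, d X Z ≤ r → ip (ee φ) Z = ip (ee φ) (Y φ) → Z = Y φ
  pos : ∀ φ, 0 < ip (ee φ) (Y φ - X)
  dir : ∀ φ, Y φ - X = ip (ee φ) (Y φ - X) • aa n (Y φ) φ

/-- quadratic polynomials in two variables -/
def ev (q : Fin 6 → ℝ) (x : P) : ℝ :=
  q 0 * x.1 ^ 2 + q 1 * x.1 * x.2 + q 2 * x.2 ^ 2 + q 3 * x.1 + q 4 * x.2 + q 5

/-- discriminant of the quadratic part -/
def disc (q : Fin 6 → ℝ) : ℝ := q 1 ^ 2 - 4 * q 0 * q 2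

/-- symmetric bilinear form with matrix `(A, B; B, C)` -/
def bf (A B C : ℝ) (u v : P) : ℝ := A * u.1 * v.1 + B * (u.1 * v.2 + u.2 * v.1) + C * u.2 * v.2

/-- ellipse property at `O`: `n O u` is orthogonal to `u` for a positive definite form. -/
def EllAt (n : P → P → P) (O : P) : Prop :=
  ∃ A B C : ℝ, 0 < A ∧ 0 < A * C - B ^ 2 ∧ ∀ u : P, u ≠ 0 → bf A B C u (n O u) = 0

end Pool.Agent.W553.PM
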