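import Pool.Agent.W553.PM.Stm

/-! Projective metric planes, affine part: second order contact of spheres with a line. -/

set_option autoImplicit false

namespace Pool.Agent.W553.PM.Sph

open Set Filter Topology Pool.Agent.W553.PM

/-- `m Y`: slope of the perpendicular at `Y` to the vertical direction -/
noncomputable def mm (n : P → P → P) (Y : P) : ℝ := -(n Y (0, 1)).2

/-- normal form of the ellipse property -/
def NF (n : P → P → P) (Y : P) (a : ℝ) : Prop :=
  0 < a - mm n Y ^ 2 ∧ ∀ u : P, u ≠ 0 →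
    a * u.1 * (n Y u).1 - mm n Y * (u.1 * (n Y u).2 + u.2 * (n Y u).1) + u.2 * (n Y u).2 = 0

variable {M : Set P} {d : P → P → ℝ} {n : P → P → P}

lemma v01 : ((0, 1) : P) ≠ 0 := by simp [Prod.ext_iff]
lemma v11 : ((1, 1) : P) ≠ 0 := by simp [Prod.ext_iff]

lemma ell_norm (hp : Perp M d n) {Y : P} (hY : Y ∈ M) (hE : EllAt n Y) : ∃ a : ℝ, NF n Y a := by
  obtain ⟨A, B, C, hA, hD, h⟩ := hE
  have hC : 0 < C := by
    by_contra hC
    push Not at hC
    nlinarith [sq_nonneg B, mul_nonneg hA.le (neg_nonneg.2 hC)]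
  have h1 := hp.n1 Y hY (0, 1) v01
  have h2 := h (0, 1) v01
  unfold dt at h1
  unfold bf at h2
  simp only [zero_mul, one_mul, zero_sub, mul_zero, zero_add, mul_one] at h1 h2
  have h3 : (n Y (0, 1)).1 = -1 := by linarith
  rw [h3] at h2
  have hB : B = -(C * mm n Y) := by unfold mm; linarith
  refine ⟨A / C, ?_, ?_⟩
  · have : A / C - mm n Y ^ 2 = (A * C - B ^ 2) / C ^ 2 := by
      rw [hB]; field_simp
    rw [this]
    positivity
  · intro u hu
    have h4 := h u hu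
    unfold bf at h4
    rw [hB] at h4
    have : A / C * u.1 * (n Y u).1 - mm n Y * (u.1 * (n Y u).2 + u.2 * (n Y u).1)
        + u.2 * (n Y u).2 = (A * u.1 * (n Y u).1 + -(C * mm n Y) *
        (u.1 * (n Y u).2 + u.2 * (n Y u).1) + C * u.2 * (n Y u).2) / C := by
      field_simp
      ring
    rw [this, h4, zero_div]

/-- supporting lines -/
lemma sup (hp : Perp M d n) {X Y : P} (hX : X ∈ M) (hY : Y ∈ M) {a : ℝ} (ha : NF n Y a)
    {k ν δ : ℝ} (hk : k ≠ 0) (hXY : X = (Y.1 + k, Y.2 + k * ν))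
    (hδ : a * δ - mm n Y * (δ * ν + 1) + ν = 0) (t : ℝ) (ht : t ≠ 0)
    (htM : ((Y.1 + t * δ, Y.2 + t) : P) ∈ M) : d X Y < d X (Y.1 + t * δ, Y.2 + t) := by
  obtain ⟨ha1, ha2⟩ := ha
  set m := mm n Y with hm
  have hu : ((δ, 1) : P) ≠ 0 := by simp [Prod.ext_iff]
  have h1 := hp.n1 Y hY (δ, 1) hu
  have h2 := ha2 (δ, 1) hu
  unfold dt at h1
  simp only at h1 h2
  set v := n Y (δ, 1) with hv
  have hq : 0 < a * δ ^ 2 - 2 * m * δ + 1 := by
    have : a * δ ^ 2 - 2 * m * δ + 1 = (1 - m * δ) ^ 2 + (a - m ^ 2) * δ ^ 2 := by ring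
    rw [this]
    by_cases h0 : δ = 0
    · rw [h0]; norm_num
    · positivity
  have hD : δ * ν - 1 ≠ 0 := by
    intro h0
    have e1 : a - 2 * m * ν + ν ^ 2 = 0 := by
      have e2 : (a * δ - m * (δ * ν + 1) + ν) * ν = a * (δ * ν) - m * (δ * ν + 1) * ν + ν ^ 2 := by
        ring
      rw [hδ, zero_mul] at e2
      have e3 : δ * ν = 1 := by linarith
      rw [e3] at e2
      linarith
    nlinarith [sq_nonneg (ν - m)]
  have hv2 : v.2 * (a * δ ^ 2 - 2 * m * δ + 1) = a * δ - m := by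
    have : v.1 = δ * v.2 - 1 := by linarith
    rw [this] at h2
    linarith
  have hv2' : (δ * ν - 1) * v.2 = ν := by
    have : ((δ * ν - 1) * v.2 - ν) * (a * δ ^ 2 - 2 * m * δ + 1) = 0 := by
      have e : ((δ * ν - 1) * v.2 - ν) * (a * δ ^ 2 - 2 * m * δ + 1) =
        (δ * ν - 1) * (v.2 * (a * δ ^ 2 - 2 * m * δ + 1)) - ν * (a * δ ^ 2 - 2 * m * δ + 1) := by
        ring
      rw [e, hv2]
      linear_combination -hδ
    rcases mul_eq_zero.1 this with h | h
    · linarith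
    · exact absurd h hq.ne'
  have hv1' : (δ * ν - 1) * v.1 = 1 := by
    have : v.1 = δ * v.2 - 1 := by linarith
    rw [this]
    linear_combination δ * hv2'
  have hXe : X = Y + (k * (δ * ν - 1)) • v := by
    rw [hXY]
    ext
    · simp only [Prod.fst_add, Prod.smul_fst, smul_eq_mul]
      linear_combination -k * hv1'
    · simp only [Prod.snd_add, Prod.smul_snd, smul_eq_mul]
      linear_combination -k * hv2'
  have e1 : ((Y.1 + t * δ, Y.2 + t) : P) = Y + t • ((δ, 1) : P) := by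
    ext <;> simp
  rw [e1] at htM ⊢
  have := hp.n2 Y hY (δ, 1) hu (k * (δ * ν - 1)) t ht (by rw [← hv, ← hXe]; exact hX) htM
  rw [← hv, ← hXe] at this
  exact this

/-- separation by supporting lines -/
lemma sep (hM : PMet M d) (hp : Perp M d n) {X Y Z : P} (hX : X ∈ M) (hY : Y ∈ M) (hZ : Z ∈ M)
    {a : ℝ} (ha : NF n Y a)
    {k ν δ : ℝ} (hk : 0 < k) (hXY : X = (Y.1 + k, Y.2 + k * ν))
    (hδ : a * δ - mm n Y * (δ * ν + 1) + ν = 0) (hδν : 0 < 1 - δ * ν)
    (hZ' : (Z.1 - Y.1) - δ * (Z.2 - Y.2) < 0) : d X Y < d X Z := by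
  have hlX : (X.1 - Y.1) - δ * (X.2 - Y.2) = k * (1 - δ * ν) := by
    rw [hXY]; simp only; ring
  have hlX0 : 0 < k * (1 - δ * ν) := mul_pos hk hδν
  set lX := (X.1 - Y.1) - δ * (X.2 - Y.2) with hlXd
  set lZ := (Z.1 - Y.1) - δ * (Z.2 - Y.2) with hlZd
  rw [← hlX] at hlX0
  have hden : 0 < lX - lZ := by linarith
  set lam := -lZ / (lX - lZ) with hlam
  have hlam0 : 0 < lam := div_pos (by linarith) hden
  have hlam1 : lam < 1 := by rw [hlam, div_lt_one hden]; linarith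
  set W : P := (1 - lam) • Z + lam • X with hW
  have hWs : W ∈ segment ℝ X Z := ⟨lam, 1 - lam, hlam0.le, by linarith, by ring, by
    rw [hW]; abel⟩
  have hWM : W ∈ M := hM.cvx.segment_subset hX hZ hWs
  have hWl : (W.1 - Y.1) - δ * (W.2 - Y.2) = 0 := by
    have e : (W.1 - Y.1) - δ * (W.2 - Y.2) = (1 - lam) * lZ + lam * lX := by
      rw [hW, hlZd, hlXd]
      simp only [Prod.fst_add, Prod.smul_fst, smul_eq_mul, Prod.snd_add, Prod.smul_snd]
      ring
    rw [e, hlam]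
    field_simp
    ring
  have hadd := hM.seg X hX W hWM Z hZ hWs
  have hWZ : 0 < d W Z := by
    apply hM.pos hWM hZ
    intro h
    rw [h] at hWl
    rw [← hlZd] at hWl
    linarith
  have hXW : d X Y ≤ d X W := by
    by_cases ht : W.2 - Y.2 = 0
    · have : W = Y := by
        ext
        · rw [ht] at hWl; linarith
        · linarith
      rw [this]
    · have e : W = (Y.1 + (W.2 - Y.2) * δ, Y.2 + (W.2 - Y.2)) := by
        ext
        · simp only; linarith
        · simp only; ring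
      have h := sup hp hX hY ha hk.ne' hXY hδ (W.2 - Y.2) ht (by rw [← e]; exact hWM)
      rw [← e] at h
      exact h.le
  linarith


lemma contAt_n (hM : PMet M d) (hc : NCont M n) {O u : P} (hO : O ∈ M) (hu : u ≠ 0) :
    ContinuousAt (fun Y => n Y u) O := by
  have hopen : IsOpen (M ×ˢ {u : P | u ≠ 0}) := hM.opn.prod isOpen_ne
  have h1 : ContinuousAt (fun p : P × P => n p.1 p.2) (O, u) :=
    hc.continuousAt (hopen.mem_nhds ⟨hO, hu⟩)
  have h2 : ContinuousAt (fun Y : P => (Y, u)) O := by fun_prop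
  exact ContinuousAt.comp (f := fun Y : P => (Y, u)) (g := fun p : P × P => n p.1 p.2) h1 h2

lemma contAt_m (hM : PMet M d) (hc : NCont M n) {O : P} (hO : O ∈ M) :
    ContinuousAt (mm n) O := by
  have := contAt_n hM hc hO v01
  unfold mm
  fun_prop

/-- local smallness of `m` and closeness of `a` to `1` -/
lemma loc (hM : PMet M d) (hp : Perp M d n) (hc : NCont M n) (h0 : (0 : P) ∈ M)
    (hE : ∀ Y ∈ M, EllAt n Y) (hn0 : ∀ u : P, u ≠ 0 → ip u (n 0 u) = 0) {η : ℝ} (hη : 0 < η) :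
    ∃ ρ > 0, ∀ Y : P, ‖Y‖ < ρ → Y ∈ M ∧ |mm n Y| ≤ η ∧ ∃ a, |a - 1| ≤ η ∧ NF n Y a := by
  have hm0 : mm n 0 = 0 := by
    have := hn0 (0, 1) v01
    unfold ip at this
    unfold mm
    simp only [zero_mul, one_mul, zero_add] at this
    rw [this, neg_zero]
  have hv0 : (n 0 (1, 1)).2 = 1 / 2 := by
    have h1 := hn0 (1, 1) v11
    have h2 := hp.n1 0 h0 (1, 1) v11
    unfold ip at h1
    unfold dt at h2
    simp only [one_mul] at h1 h2
    linarith
  have hcm := contAt_m hM hc h0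
  have hcv := contAt_n hM hc h0 v11
  set f : P → ℝ := fun Y => ((n Y (1, 1)).2 + mm n Y - 2 * mm n Y * (n Y (1, 1)).2) /
    (1 - (n Y (1, 1)).2) with hf
  have hcf : ContinuousAt f 0 := by
    rw [hf]
    apply ContinuousAt.div
    · fun_prop
    · fun_prop
    · rw [hv0]; norm_num
  have hf0 : f 0 = 1 := by
    rw [hf]; simp only; rw [hv0, hm0]; norm_num
  have e1 : ∀ᶠ Y in 𝓝 (0:P), Y ∈ M := hM.opn.mem_nhds h0
  have e2 : ∀ᶠ Y in 𝓝 (0:P), |mm n Y| < η := by
    have := hcm.tendsto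
    rw [hm0] at this
    have h := this (Metric.ball_mem_nhds 0 hη)
    filter_upwards [h] with Y hY
    simpa [Real.dist_eq] using hY
  have e3 : ∀ᶠ Y in 𝓝 (0:P), |f Y - 1| < η := by
    have := hcf.tendsto
    rw [hf0] at this
    have h := this (Metric.ball_mem_nhds 1 hη)
    filter_upwards [h] with Y hY
    simpa [Real.dist_eq] using hY
  have e4 : ∀ᶠ Y in 𝓝 (0:P), (n Y (1, 1)).2 < 1 := by
    have : ContinuousAt (fun Y => (n Y (1, 1)).2) 0 := by fun_prop
    apply this.eventually_lt_const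
    show (n 0 (1, 1)).2 < 1
    rw [hv0]; norm_num
  obtain ⟨ρ, hρ, hball⟩ := Metric.eventually_nhds_iff.1 (e1.and (e2.and (e3.and e4)))
  refine ⟨ρ, hρ, fun Y hY => ?_⟩
  obtain ⟨hYM, h2, h3, h4⟩ := hball (y := Y) (by rwa [dist_zero_right])
  obtain ⟨a, ha⟩ := ell_norm hp hYM (hE Y hYM)
  refine ⟨hYM, h2.le, a, ?_, ha⟩
  have h5 := ha.2 (1, 1) v11
  have h6 := hp.n1 Y hYM (1, 1) v11
  unfold dt at h6
  simp only [one_mul, mul_one] at h5 h6
  have h7 : a = f Y := by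
    rw [hf]
    simp only
    rw [eq_div_iff (by linarith)]
    have : (n Y (1, 1)).1 = (n Y (1, 1)).2 - 1 := by linarith
    rw [this] at h5
    linarith
  rw [h7]
  exact h3.le

/-- the slope `m` is Lipschitz in the horizontal direction near the vertical line -/
lemma lipm (hM : PMet M d) (hp : Perp M d n) (hc : NCont M n) (hlip : S_lip) (h0 : (0 : P) ∈ M)
    (hE : ∀ Y ∈ M, EllAt n Y) (hn0 : ∀ u : P, u ≠ 0 → ip u (n 0 u) = 0) :
    ∃ ρ > 0, ∃ C : ℝ, 0 ≤ C ∧ ∀ h y : ℝ, |h| < ρ → |y| < ρ →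
      |mm n (h, y) - mm n (0, y)| ≤ C * |h| := by
  obtain ⟨ρ₁, hρ₁, C, hC⟩ := hlip M d n hM hp hc 0 h0
  obtain ⟨ρ₂, hρ₂, hloc⟩ := loc hM hp hc h0 hE hn0 (η := 1 / 2) (by norm_num)
  set C' := |C| with hC'
  have hC'0 : 0 ≤ C' := abs_nonneg _
  set ρ := min (min (ρ₁ / 2) (ρ₂ / 2)) (1 / (4 * (C' + 1))) with hρ
  have hρ0 : 0 < ρ := by rw [hρ]; positivity
  have hρa : ρ ≤ ρ₁ / 2 := (min_le_left _ _).trans (min_le_left _ _)
  have hρb : ρ ≤ ρ₂ / 2 := (min_le_left _ _).trans (min_le_right _ _)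
  have hρc : ρ ≤ 1 / (4 * (C' + 1)) := min_le_right _ _
  refine ⟨ρ, hρ0, 6 * C', by positivity, fun h y hh hy => ?_⟩
  have hch : C' * |h| ≤ 1 / 4 := by
    have h1 : |h| * (4 * (C' + 1)) ≤ 1 := by
      have := hh.le.trans hρc
      rwa [le_div_iff₀ (by positivity)] at this
    nlinarith [abs_nonneg h]
  have nrm : ∀ a b : ℝ, |a| < ρ₂ → |b| < ρ₂ → ‖((a, b) : P)‖ < ρ₂ := by
    intro a b ha hb
    rw [Prod.norm_def]
    exact max_lt ha hb
  have nrm1 : ∀ a b : ℝ, |a| < ρ₁ → |b| < ρ₁ → dist ((a, b) : P) 0 < ρ₁ := by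
    intro a b ha hb
    rw [dist_zero_right, Prod.norm_def]
    exact max_lt ha hb
  -- `Y1`
  obtain ⟨hY1, hm1, a1, ha1, hN1⟩ := hloc (0, y) (nrm 0 y (by rw [abs_zero]; exact hρ₂) (by linarith))
  set μ := mm n (0, y) with hμ
  have hμ1 : |μ| ≤ 1 / 2 := hm1
  have hv1 : ((1, μ) : P) ≠ 0 := by simp [Prod.ext_iff]
  have hv1n : ‖((1, μ) : P)‖ = 1 := by
    rw [Prod.norm_def]
    simp only [norm_one, Real.norm_eq_abs]
    exact max_eq_left (by linarith)
  -- perpendicular of v1 at Y1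
  have hn1 : n (0, y) (1, μ) = (0, 1) := by
    have h1 := hp.n1 _ hY1 (1, μ) hv1
    have h2 := hN1.2 (1, μ) hv1
    unfold dt at h1
    simp only [one_mul, mul_one] at h1 h2
    rw [← hμ] at h2
    have h3 : (n (0, y) (1, μ)).1 * (a1 - μ ^ 2) = 0 := by
      linear_combination h2
    have h4 : (n (0, y) (1, μ)).1 = 0 := by
      rcases mul_eq_zero.1 h3 with h | h
      · exact h
      · exact absurd h (ne_of_gt hN1.1)
    ext
    · exact h4
    · rw [h4] at h1; simpa using h1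
  -- `Y2`
  have hhμ : |h * μ| ≤ |h| := by
    rw [abs_mul]
    nlinarith [abs_nonneg h, abs_nonneg μ]
  have hL1 := hC (0, y) (nrm1 0 y (by rw [abs_zero]; exact hρ₁) (by linarith)) (1, μ) hv1n h
    (by linarith)
  have eY2 : ((0, y) : P) + h • ((1, μ) : P) = (h, y + h * μ) := by
    ext <;> simp
  rw [eY2, hn1] at hL1
  obtain ⟨-, hY2M, hL1⟩ := hL1
  obtain ⟨-, hm2, a2, ha2, hN2⟩ := hloc (h, y + h * μ) (nrm _ _ (by linarith) (by
    calc |y + h * μ| ≤ |y| + |h * μ| := abs_add_le _ _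
      _ < ρ₂ := by linarith))
  set w := n (h, y + h * μ) (1, μ) with hw
  have hCle : C * |h| ≤ C' * |h| := mul_le_mul_of_nonneg_right (le_abs_self C) (abs_nonneg h)
  have hw1 : |w.1| ≤ C' * |h| := by
    have := norm_fst_le (w - (0, 1))
    simp only [Prod.fst_sub, sub_zero, Real.norm_eq_abs] at this
    linarith
  have hw2 : |w.2 - 1| ≤ C' * |h| := by
    have := norm_snd_le (w - (0, 1))
    simp only [Prod.snd_sub, Real.norm_eq_abs] at this
    linarith
  set m2 := mm n (h, y + h * μ) with hm2d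
  have hf := hN2.2 (1, μ) hv1
  rw [← hw, ← hm2d] at hf
  simp only [mul_one, one_mul] at hf
  have key : (m2 - μ) * (w.2 + μ * w.1) = w.1 * (a2 - μ ^ 2) := by linear_combination -hf
  have hden : 1 / 2 ≤ w.2 + μ * w.1 := by
    have h1 : |μ * w.1| ≤ 1 / 8 := by
      rw [abs_mul]
      nlinarith [abs_nonneg μ, abs_nonneg w.1]
    have h2 := abs_le.1 h1
    have h3 := abs_le.1 hw2
    linarith [h2.1, h3.1]
  have hnum : |w.1 * (a2 - μ ^ 2)| ≤ C' * |h| * 2 := by
    rw [abs_mul]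
    have h1 : |a2 - μ ^ 2| ≤ 2 := by
      have h2 := abs_le.1 ha2
      have h3 := abs_le.1 hμ1
      rw [abs_le]
      constructor <;> nlinarith
    exact mul_le_mul hw1 h1 (abs_nonneg _) (by positivity)
  have hm2μ : |m2 - μ| ≤ 4 * (C' * |h|) := by
    have h1 : |m2 - μ| * (w.2 + μ * w.1) ≤ C' * |h| * 2 := by
      rw [← key, abs_mul, abs_of_pos (by linarith : 0 < w.2 + μ * w.1)] at hnum
      exact hnum
    nlinarith [abs_nonneg (m2 - μ)]
  -- vertical step
  have hL2 := hC (h, y) (nrm1 h y (by linarith) (by linarith)) (0, 1) (by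
    rw [Prod.norm_def]; simp) (h * μ) (by linarith)
  have eY3 : ((h, y) : P) + (h * μ) • ((0, 1) : P) = (h, y + h * μ) := by
    ext <;> simp
  rw [eY3] at hL2
  obtain ⟨-, -, hL2⟩ := hL2
  have hm3 : |m2 - mm n (h, y)| ≤ C' * |h| := by
    have h1 := norm_snd_le (n (h, y + h * μ) (0, 1) - n (h, y) (0, 1))
    simp only [Prod.snd_sub, Real.norm_eq_abs] at h1
    have h2 : m2 - mm n (h, y) = -((n (h, y + h * μ) (0, 1)).2 - (n (h, y) (0, 1)).2) := by
      rw [hm2d]; unfold mm; ring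
    rw [h2, abs_neg]
    have h3 : C * |h * μ| ≤ C' * |h| := by
      have := mul_le_mul (le_abs_self C) hhμ (abs_nonneg _) hC'0
      exact this
    linarith
  calc |mm n (h, y) - μ| = |(m2 - μ) - (m2 - mm n (h, y))| := by congr 1; ring
    _ ≤ |m2 - μ| + |m2 - mm n (h, y)| := abs_sub _ _
    _ ≤ 6 * C' * |h| := by nlinarith [mul_nonneg hC'0 (abs_nonneg h)]


/-- main local estimate -/
lemma main (hM : PMet M d) (hp : Perp M d n) (hc : NCont M n) (hlip : S_lip) (h0 : (0 : P) ∈ M)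
    (hE : ∀ Y ∈ M, EllAt n Y) (hn0 : ∀ u : P, u ≠ 0 → ip u (n 0 u) = 0) (c : ℝ)
    (hder : HasDerivAt (fun y : ℝ => mm n (0, y)) c 0) (s₁ s₂ : ℝ) (hs₁ : 0 < s₁)
    (hseg : ∀ s ∈ Icc (0 : ℝ) s₂, ((s, 0) : P) ∈ M) (C₀ : ℝ) (hC₀ : 0 < C₀) (ε : ℝ)
    (hε : 0 < ε) :
    ∃ p₀ > 0, ∀ p : ℝ, 0 < p → p < p₀ → ∀ s ∈ Icc s₁ s₂, ∀ τ : ℝ, τ ^ 2 ≤ C₀ * p →
      ((s, τ + mm n (0, τ) * s) : P) ∈ M ∧ ∀ g θ : ℝ, |g| ≤ 2 * p → 0 ≤ θ → θ ≤ 1 →
        ((g, τ * (1 - θ)) : P) ∈ M ∧ ∃ δ : ℝ, |δ * τ + τ ^ 2 * θ * (c + 1 / s)| ≤ ε * p ∧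
          ∀ Z ∈ M, (Z.1 - g) - δ * (Z.2 - τ * (1 - θ)) < 0 →
            d (s, τ + mm n (0, τ) * s) (g, τ * (1 - θ)) < d (s, τ + mm n (0, τ) * s) Z := by
  -- constants
  set Kc := |c| + 1 / s₁ with hKc
  have hKc0 : 0 < Kc := by positivity
  set η := min (1 / 4) (ε / (2 * (C₀ * (8 + 4 * Kc)))) with hη
  have hη0 : 0 < η := by rw [hη]; positivity
  have hη4 : η ≤ 1 / 4 := min_le_left _ _
  have hηε : C₀ * η * (8 + 4 * Kc) ≤ ε / 2 := by
    have h1 : η ≤ ε / (2 * (C₀ * (8 + 4 * Kc))) := min_le_right _ _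
    rw [le_div_iff₀ (by positivity)] at h1
    linarith
  obtain ⟨ρ₁, hρ₁, hloc⟩ := loc hM hp hc h0 hE hn0 hη0
  obtain ⟨ρ₂, hρ₂, C', hC', hlm⟩ := lipm hM hp hc hlip h0 hE hn0
  -- derivative
  have hm0 : mm n (0, 0) = 0 := by
    have h := hn0 (0, 1) v01
    unfold ip at h
    unfold mm
    simp only [zero_mul, one_mul, zero_add] at h
    have e : ((0, 0) : P) = 0 := rfl
    rw [e, h, neg_zero]
  obtain ⟨ρ₃, hρ₃, hder'⟩ : ∃ ρ₃ > 0, ∀ y : ℝ, |y| < ρ₃ → |mm n (0, y) - c * y| ≤ η * |y| := by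
    have h1 := hder.isLittleO
    have h2 := h1.def hη0
    obtain ⟨ρ₃, hρ₃, h3⟩ := Metric.eventually_nhds_iff.1 h2
    refine ⟨ρ₃, hρ₃, fun y hy => ?_⟩
    have h4 := h3 (y := y) (by simpa [Real.dist_eq] using hy)
    simp only [hm0, sub_zero, Real.norm_eq_abs, smul_eq_mul] at h4
    rw [mul_comm c y]
    exact h4
  -- tube around the segment
  obtain ⟨r, hr, htube⟩ : ∃ r > 0, ∀ s ∈ Icc s₁ s₂, ∀ x : ℝ, |x| < r → ((s, x) : P) ∈ M := by
    have hcomp : IsCompact ((fun s : ℝ => ((s, 0) : P)) '' Icc (0:ℝ) s₂) :=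
      isCompact_Icc.image (by fun_prop)
    have hsub : ((fun s : ℝ => ((s, 0) : P)) '' Icc (0:ℝ) s₂) ⊆ M := by
      rintro _ ⟨s, hs, rfl⟩
      exact hseg s hs
    obtain ⟨r, hr, hth⟩ := hcomp.exists_thickening_subset_open hM.opn hsub
    refine ⟨r, hr, fun s hs x hx => hth ?_⟩
    rw [Metric.mem_thickening_iff]
    refine ⟨(s, 0), ⟨s, ⟨hs₁.le.trans hs.1, hs.2⟩, rfl⟩, ?_⟩
    rw [Prod.dist_eq]
    simp only [dist_self, Real.dist_eq, sub_zero]
    exact max_lt hr hx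
  -- T bound
  set S := |s₂| with hS
  set T₀ := min (min (min (ρ₁ / 2) (ρ₂ / 2)) (min (ρ₃ / 2) (1 / (Kc + 1))))
    (min (ε / (8 * (C' + 1))) (r / (2 * (1 + (|c| + 1) * S)))) with hT₀
  have hT₀0 : 0 < T₀ := by rw [hT₀]; positivity
  have hTa : T₀ ≤ ρ₁ / 2 := (min_le_left _ _).trans ((min_le_left _ _).trans (min_le_left _ _))
  have hTb : T₀ ≤ ρ₂ / 2 := (min_le_left _ _).trans ((min_le_left _ _).trans (min_le_right _ _))
  have hTc : T₀ ≤ ρ₃ / 2 := (min_le_left _ _).trans ((min_le_right _ _).trans (min_le_left _ _))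
  have hTd : T₀ ≤ 1 / (Kc + 1) :=
    (min_le_left _ _).trans ((min_le_right _ _).trans (min_le_right _ _))
  have hTe : T₀ ≤ ε / (8 * (C' + 1)) := (min_le_right _ _).trans (min_le_left _ _)
  have hTf : T₀ ≤ r / (2 * (1 + (|c| + 1) * S)) := (min_le_right _ _).trans (min_le_right _ _)
  set K₁ := 4 / s₁ ^ 2 + 4 * |c| / s₁ with hK₁
  have hK₁0 : 0 < K₁ := by positivity
  set p₀ := min (min (T₀ ^ 2 / C₀) (ρ₁ / 4)) (min (min (ρ₂ / 4) (s₁ / 4)) (η / K₁)) with hp₀
  have hp₀0 : 0 < p₀ := by rw [hp₀]; positivity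
  refine ⟨p₀, hp₀0, fun p hp0 hpp s hs τ hτ => ?_⟩
  have hpa : p < T₀ ^ 2 / C₀ := hpp.trans_le ((min_le_left _ _).trans (min_le_left _ _))
  have hpb : p < ρ₁ / 4 := hpp.trans_le ((min_le_left _ _).trans (min_le_right _ _))
  have hpc : p < ρ₂ / 4 :=
    hpp.trans_le ((min_le_right _ _).trans ((min_le_left _ _).trans (min_le_left _ _)))
  have hpd : p < s₁ / 4 :=
    hpp.trans_le ((min_le_right _ _).trans ((min_le_left _ _).trans (min_le_right _ _)))
  have hpe : p < η / K₁ := hpp.trans_le ((min_le_right _ _).trans (min_le_right _ _))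
  have hpK : p * K₁ ≤ η := by
    rw [lt_div_iff₀ hK₁0] at hpe
    exact hpe.le
  set T := |τ| with hT
  have hT0 : 0 ≤ T := abs_nonneg _
  have hTsq : T ^ 2 = τ ^ 2 := sq_abs τ
  have hTT : T < T₀ := by
    rw [lt_div_iff₀ hC₀] at hpa
    have : T ^ 2 < T₀ ^ 2 := by rw [hTsq]; linarith
    exact lt_of_pow_lt_pow_left₀ 2 hT₀0.le this
  have hs0 : 0 < s := hs₁.trans_le hs.1
  set μ := mm n (0, τ) with hμ
  have hμc : |μ - c * τ| ≤ η * T := hder' τ (by linarith)
  -- X'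
  have hXM : ((s, τ + μ * s) : P) ∈ M := by
    apply htube s hs
    have h1 : |μ| ≤ (|c| + 1) * T := by
      calc |μ| = |(μ - c * τ) + c * τ| := by congr 1; ring
        _ ≤ |μ - c * τ| + |c * τ| := abs_add_le _ _
        _ ≤ η * T + |c| * T := by rw [abs_mul]; linarith
        _ ≤ (|c| + 1) * T := by nlinarith
    have h2 : s ≤ S := hs.2.trans (le_abs_self s₂)
    calc |τ + μ * s| ≤ |τ| + |μ * s| := abs_add_le _ _
      _ = T + |μ| * s := by rw [abs_mul, abs_of_pos hs0]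
      _ ≤ T + ((|c| + 1) * T) * S := by
          gcongr
      _ = T * (1 + (|c| + 1) * S) := by ring
      _ < r := by
          have h3 : T * (2 * (1 + (|c| + 1) * S)) < r := by
            have := hTT.trans_le hTf
            rwa [lt_div_iff₀ (by positivity)] at this
          have h4 : 0 ≤ T * (1 + (|c| + 1) * S) := by positivity
          linarith
  refine ⟨hXM, fun g θ hg hθ0 hθ1 => ?_⟩
  set y := τ * (1 - θ) with hy
  have hyT : |y| ≤ T := by
    rw [hy, abs_mul, abs_of_nonneg (by linarith : 0 ≤ 1 - θ)]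
    nlinarith
  obtain ⟨hYM, hmY, a, ha1, hNF⟩ := hloc (g, y) (by
    rw [Prod.norm_def]
    simp only [Real.norm_eq_abs]
    exact max_lt (by linarith) (by linarith))
  refine ⟨hYM, ?_⟩
  set m := mm n (g, y) with hm
  have hg' := abs_le.1 hg
  have hsg : s / 2 ≤ s - g := by linarith [hs.1]
  have hsg0 : 0 < s - g := by linarith
  -- m
  have hmm : |m - c * τ * (1 - θ)| ≤ η * T + 2 * C' * p := by
    have h1 : |mm n (0, y) - c * y| ≤ η * |y| := hder' y (by linarith)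
    have h2 := hlm g y (by linarith) (by linarith)
    calc |m - c * τ * (1 - θ)| = |(m - mm n (0, y)) + (mm n (0, y) - c * y)| := by
          congr 1; rw [hy]; ring
      _ ≤ |m - mm n (0, y)| + |mm n (0, y) - c * y| := abs_add_le _ _
      _ ≤ C' * |g| + η * |y| := by linarith
      _ ≤ C' * (2 * p) + η * T := by
          have := mul_le_mul_of_nonneg_left hg hC'
          have := mul_le_mul_of_nonneg_left hyT hη0.le
          linarith
      _ = η * T + 2 * C' * p := by ring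
  -- ν
  set ν := (τ * θ + μ * s) / (s - g) with hν
  have hνd : ν - (τ * θ / s + c * τ) = (τ * θ * g / s + (μ - c * τ) * s + c * τ * g) / (s - g) := by
    rw [hν]
    field_simp
    ring
  have hνe : |ν - (τ * θ / s + c * τ)| ≤ 3 * η * T := by
    rw [hνd, abs_div, abs_of_pos hsg0, div_le_iff₀ hsg0]
    have b1 : |τ * θ * g / s| ≤ T * (2 * p) / s₁ := by
      rw [abs_div, abs_mul, abs_mul, abs_of_nonneg hθ0, abs_of_pos hs0]
      have h1 : T * θ * |g| ≤ T * (2 * p) := by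
        have : T * θ ≤ T := by nlinarith
        exact mul_le_mul this hg (abs_nonneg _) hT0
      exact div_le_div₀ (by positivity) h1 hs₁ hs.1
    have b2 : |(μ - c * τ) * s| ≤ η * T * s := by
      rw [abs_mul, abs_of_pos hs0]
      exact mul_le_mul_of_nonneg_right hμc hs0.le
    have b3 : |c * τ * g| ≤ |c| * T * (2 * p) := by
      rw [abs_mul, abs_mul]
      exact mul_le_mul_of_nonneg_left hg (by positivity)
    have b4 : T * (2 * p) / s₁ + |c| * T * (2 * p) ≤ η * T * (s₁ / 2) := by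
      have h1 : T * (2 * p) / s₁ + |c| * T * (2 * p) = (T * (s₁ / 2)) * (p * K₁) := by
        rw [hK₁]
        field_simp
        ring
      rw [h1]
      calc (T * (s₁ / 2)) * (p * K₁) ≤ (T * (s₁ / 2)) * η := by
            apply mul_le_mul_of_nonneg_left hpK; positivity
        _ = η * T * (s₁ / 2) := by ring
    have hηT : 0 ≤ η * T := by positivity
    have b5 : η * T * (s₁ / 2) ≤ η * T * (s - g) := by
      apply mul_le_mul_of_nonneg_left _ hηT
      linarith [hs.1]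
    have b6 : η * T * s ≤ 2 * (η * T * (s - g)) := by
      have : η * T * s ≤ η * T * (2 * (s - g)) := by
        apply mul_le_mul_of_nonneg_left _ hηT
        linarith
      linarith
    calc |τ * θ * g / s + (μ - c * τ) * s + c * τ * g| ≤
        |τ * θ * g / s| + |(μ - c * τ) * s| + |c * τ * g| := abs_add_three _ _ _
      _ ≤ 3 * η * T * (s - g) := by linarith
  have hcs : |c + 1 / s| ≤ Kc := by
    calc |c + 1 / s| ≤ |c| + |1 / s| := abs_add_le _ _
      _ ≤ |c| + 1 / s₁ := by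
        rw [abs_of_pos (by positivity : 0 < 1 / s)]
        have := one_div_le_one_div_of_le hs₁ hs.1
        linarith
  have hν1 : |ν| ≤ 1 := by
    have h1 : |τ * θ / s + c * τ| ≤ Kc * T := by
      calc |τ * θ / s + c * τ| ≤ |τ * θ / s| + |c * τ| := abs_add_le _ _
        _ ≤ T * (1 / s₁) + |c| * T := by
          rw [abs_div, abs_mul, abs_mul, abs_of_nonneg hθ0, abs_of_pos hs0]
          have h2 : T * θ / s ≤ T * (1 / s₁) := by
            have h3 : T * θ / s ≤ T * 1 / s₁ :=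
              div_le_div₀ (by positivity) (mul_le_mul_of_nonneg_left hθ1 hT0) hs₁ hs.1
            calc T * θ / s ≤ T * 1 / s₁ := h3
              _ = T * (1 / s₁) := by ring
          linarith
        _ = Kc * T := by rw [hKc]; ring
    have h2 : |ν| ≤ (Kc + 1) * T := by
      calc |ν| = |(ν - (τ * θ / s + c * τ)) + (τ * θ / s + c * τ)| := by congr 1; ring
        _ ≤ |ν - (τ * θ / s + c * τ)| + |τ * θ / s + c * τ| := abs_add_le _ _
        _ ≤ 3 * η * T + Kc * T := by linarith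
        _ ≤ (Kc + 1) * T := by nlinarith
    have h3 : T * (Kc + 1) < 1 := by
      have := hTT.trans_le hTd
      rwa [lt_div_iff₀ (by positivity)] at this
    linarith
  -- D
  set D := a - m * ν with hD
  have hmν : |m * ν| ≤ η := by
    rw [abs_mul]
    calc |m| * |ν| ≤ η * 1 := mul_le_mul hmY hν1 (abs_nonneg _) hη0.le
      _ = η := mul_one _
  have hD1 : |D - 1| ≤ 2 * η := by
    calc |D - 1| = |(a - 1) - m * ν| := by rw [hD]; congr 1; ring
      _ ≤ |a - 1| + |m * ν| := abs_sub _ _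
      _ ≤ 2 * η := by linarith
  have hD2 : 1 / 2 ≤ D := by
    have := (abs_le.1 hD1).1
    linarith
  have hD0 : 0 < D := by linarith
  -- E
  set E := m - ν + τ * θ * (c + 1 / s) with hE'
  have hEb : |E| ≤ 4 * η * T + 2 * C' * p := by
    have e : E = (m - c * τ * (1 - θ)) - (ν - (τ * θ / s + c * τ)) := by
      rw [hE']; field_simp; ring
    calc |E| = |(m - c * τ * (1 - θ)) - (ν - (τ * θ / s + c * τ))| := by rw [e]
      _ ≤ |m - c * τ * (1 - θ)| + |ν - (τ * θ / s + c * τ)| := abs_sub _ _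
      _ ≤ 4 * η * T + 2 * C' * p := by linarith
  refine ⟨(m - ν) / D, ?_, ?_⟩
  · have e : (m - ν) / D * τ + τ ^ 2 * θ * (c + 1 / s) =
        (τ * E + (D - 1) * (τ ^ 2 * θ * (c + 1 / s))) / D := by
      rw [hE']
      field_simp
      ring
    rw [e, abs_div, abs_of_pos hD0, div_le_iff₀ hD0]
    have c1 : |τ * E| ≤ T * (4 * η * T + 2 * C' * p) := by
      rw [abs_mul]
      exact mul_le_mul_of_nonneg_left hEb hT0
    have c2 : |(D - 1) * (τ ^ 2 * θ * (c + 1 / s))| ≤ 2 * η * (T ^ 2 * Kc) := by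
      rw [abs_mul]
      apply mul_le_mul hD1 _ (abs_nonneg _) (by positivity)
      rw [abs_mul, abs_mul, abs_of_nonneg (sq_nonneg τ), abs_of_nonneg hθ0, ← hTsq]
      have : T ^ 2 * θ ≤ T ^ 2 := by nlinarith [sq_nonneg T]
      exact mul_le_mul this hcs (abs_nonneg _) (by positivity)
    have c3 : T ^ 2 ≤ C₀ * p := by rw [hTsq]; exact hτ
    have c4 : T * (8 * (C' + 1)) ≤ ε := by
      have := hTT.le.trans hTe
      rwa [le_div_iff₀ (by positivity)] at this
    have c5 : T ^ 2 * (4 * η + 2 * η * Kc) ≤ C₀ * p * (4 * η + 2 * η * Kc) :=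
      mul_le_mul_of_nonneg_right c3 (by positivity)
    have c6 : C₀ * p * (4 * η + 2 * η * Kc) ≤ p * (ε / 4) := by
      have : C₀ * p * (4 * η + 2 * η * Kc) = p * ((C₀ * η * (8 + 4 * Kc)) / 2) := by ring
      rw [this]
      apply mul_le_mul_of_nonneg_left _ hp0.le
      linarith
    have c7 : 2 * C' * T * p ≤ p * (ε / 4) := by
      have : 2 * C' * T ≤ ε / 4 := by nlinarith
      nlinarith
    have c8 : ε * p * (1 / 2) ≤ ε * p * D := mul_le_mul_of_nonneg_left hD2 (by positivity)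
    calc |τ * E + (D - 1) * (τ ^ 2 * θ * (c + 1 / s))| ≤
        |τ * E| + |(D - 1) * (τ ^ 2 * θ * (c + 1 / s))| := abs_add_le _ _
      _ ≤ T * (4 * η * T + 2 * C' * p) + 2 * η * (T ^ 2 * Kc) := by linarith
      _ = T ^ 2 * (4 * η + 2 * η * Kc) + 2 * C' * T * p := by ring
      _ ≤ ε * p * (1 / 2) := by linarith
      _ ≤ ε * p * D := c8
  · intro Z hZ hZl
    have hδD : (m - ν) / D * D = m - ν := div_mul_cancel₀ _ hD0.ne'
    apply sep hM hp (Y := (g, y)) (k := s - g) (ν := ν) (δ := (m - ν) / D) hXM hYM hZ hNF hsg0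
    · ext
      · simp
      · simp only
        rw [hν, hy]
        field_simp
        ring
    · rw [← hm]
      have : a * ((m - ν) / D) - m * ((m - ν) / D * ν + 1) + ν = (m - ν) / D * (a - m * ν) - m + ν := by
        ring
      rw [this, ← hD, hδD]
      ring
    · have h1 : D * (1 - (m - ν) / D * ν) = (ν - m) ^ 2 + (a - m ^ 2) := by
        have : D * (1 - (m - ν) / D * ν) = D - ((m - ν) / D * D) * ν := by ring
        rw [this, hδD, hD]
        ring
      have h2 : 0 < (ν - m) ^ 2 + (a - m ^ 2) := by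
        have := hNF.1
        rw [← hm] at this
        nlinarith [sq_nonneg (ν - m)]
      rw [← h1] at h2
      exact (mul_pos_iff_of_pos_left hD0).1 h2
    · exact hZl

end Pool.Agent.W553.PM.Sph
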