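import Pool.Agent.W553.PM.Basic

/-! Projective metric planes, affine part: statements of the parts (namespace `Pool.Agent.W553.PM`).
-/

set_option autoImplicit false

namespace Pool.Agent.W553.PM

open Set Filter Topology

/-- continuity of the perpendicular direction -/
def NCont (M : Set P) (n : P → P → P) : Prop :=
  ContinuousOn (fun p : P × P => n p.1 p.2) (M ×ˢ {u : P | u ≠ 0})

/-! ### Existence of perpendiculars -/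

/-- REV: for `F` near `O` the focus `F` lies inside the parabola. -/
def S_rev : Prop := ∀ (M : Set P) (d : P → P → ℝ), PMet M d → ∀ O ∈ M, ∀ u : P, u ≠ 0 →
  ∃ ρ > 0, ∀ F ∈ M, dist F O < ρ → 0 < dt u (F - O) → ∀ a b c : P, dt b c ≠ 0 →
    {X | X ∈ M ∧ d X F = hL M d O u X} = M ∩ Par a b c →
    ∃ x y : ℝ, F = a + x • b + y • c ∧ x ^ 2 < y

/-- RAY: a full perpendicular ray on the left side. -/
def S_ray : Prop := ∀ (M : Set P) (d : P → P → ℝ), PMet M d → ∀ O ∈ M, ∀ u : P, u ≠ 0 →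
  ∃ v : P, 0 < dt u v ∧ ∀ l : ℝ, 0 < l → O + l • v ∈ M → ∀ t : ℝ, O + t • u ∈ M →
    d (O + l • v) O ≤ d (O + l • v) (O + t • u)

/-- PERP: existence of the perpendicular field. -/
def S_perp : Prop := ∀ (M : Set P) (d : P → P → ℝ), PMet M d → ∃ n : P → P → P, Perp M d n

/-- NCONT: continuity of the perpendicular field. -/
def S_ncont : Prop := ∀ (M : Set P) (d : P → P → ℝ) (n : P → P → P), PMet M d → Perp M d n →
  NCont M n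

/-- NHOM: homogeneity of the perpendicular field. -/
def S_nhom : Prop := ∀ (M : Set P) (d : P → P → ℝ) (n : P → P → P), PMet M d → Perp M d n →
  ∀ O ∈ M, ∀ u : P, u ≠ 0 → ∀ c : ℝ, c ≠ 0 → n O (c • u) = c⁻¹ • n O u

/-! ### Small balls and the ellipse property -/

/-- SMALL -/
def S_small : Prop := ∀ (M : Set P) (d : P → P → ℝ), PMet M d → ∀ O ∈ M, ∀ δ > 0,
  ∃ ρ > 0, ∀ X ∈ M, dist X O < ρ → ∀ Z ∈ M, d X Z ≤ ρ → dist Z O < δ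

/-- CONTACT: contact points of small balls. -/
def S_contact : Prop := ∀ (M : Set P) (d : P → P → ℝ) (n : P → P → P), PMet M d → Perp M d n →
  NCont M n → ∀ O ∈ M, ∀ δ > 0, ∃ ρ > 0, ∀ X ∈ M, dist X O < ρ → ∀ r : ℝ, 0 < r → r < ρ →
    ∃ Y : ℝ → P, Contact M d n X r Y ∧ ∀ φ, dist (Y φ) O < δ

/-- DANSKIN: derivative of a support function. -/
def S_danskin : Prop := ∀ Y : ℝ → P, Continuous Y →
  (∀ φ ψ, ip (ee φ) (Y ψ) ≤ ip (ee φ) (Y φ)) → ∀ (X : P) (φ : ℝ),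
    HasDerivAt (fun ψ => ip (ee ψ) (Y ψ - X)) (ip (ww φ) (Y φ - X)) φ

/-- COMPARE: the shape of small balls. -/
def S_compare : Prop := ∀ (M : Set P) (d : P → P → ℝ) (n : P → P → P), PMet M d → Perp M d n →
  NCont M n → ∀ O ∈ M, ∀ ε > 0, ∃ ρ > 0, ∀ X ∈ M, dist X O < ρ → ∀ r : ℝ, 0 < r → r < ρ →
    ∀ Y : ℝ → P, Contact M d n X r Y → ∀ φ ∈ Icc (-10 : ℝ) 10, ∀ ψ ∈ Icc (-10 : ℝ) 10,
      |Real.log (ip (ee φ) (Y φ - X)) - Real.log (ip (ee ψ) (Y ψ - X))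
        - ∫ t in ψ..φ, TT n O t| ≤ ε

/-- the limit shape (support function) of small balls near `O` -/
noncomputable def GG (n : P → P → P) (O : P) (φ : ℝ) : ℝ := Real.exp (∫ t in (0 : ℝ)..φ, TT n O t)

/-- GSHAPE: the limit shape is symmetric and is the support function of its contact curve. -/
def S_G : Prop := ∀ (M : Set P) (d : P → P → ℝ) (n : P → P → P), PMet M d → Perp M d n →
  NCont M n → ∀ O ∈ M, (∀ φ, GG n O (φ + Real.pi) = GG n O φ) ∧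
    ∀ φ ψ, GG n O ψ * ip (ee φ) (aa n O ψ) ≤ GG n O φ

/-- MICRO: points of the parabolic conic with focus `O + p a₀` and leading line through `O`, at
scale `p → 0`. -/
def S_micro : Prop := ∀ (M : Set P) (d : P → P → ℝ) (n : P → P → P), PMet M d → Perp M d n →
  NCont M n → ∀ O ∈ M, ∀ φ₀ ∈ Icc (-4 : ℝ) 4, ∀ φ ∈ Icc (-4 : ℝ) 4,
    0 < GG n O φ₀ + GG n O φ * ip (ee φ₀) (aa n O φ) →
    ∃ X : ℝ → P,
      (∀ᶠ p in 𝓝[>] (0 : ℝ), X p ∈ M ∧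
        d (X p) (O + p • aa n O φ₀) = hL M d O (ww φ₀) (X p)) ∧
      Tendsto (fun p : ℝ => p⁻¹ • (X p - O)) (𝓝[>] 0)
        (𝓝 (aa n O φ₀ - (GG n O φ / (GG n O φ₀ + GG n O φ * ip (ee φ₀) (aa n O φ)))
          • aa n O φ))

/-- IMPL: implicit equation of a parabola in affine coordinates. -/
def S_impl : Prop := ∀ a b c : P, dt b c ≠ 0 → ∀ o e₁ e₂ : P, dt e₁ e₂ ≠ 0 →
  ∃ q : Fin 6 → ℝ, q ≠ 0 ∧ disc q = 0 ∧
    ∀ x : P, (o + x.1 • e₁ + x.2 • e₂ ∈ Par a b c ↔ ev q x = 0)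

/-- CLIM: limits of parabolas. -/
def S_clim : Prop := ∀ (ι : Type) (x : ι → ℕ → P) (xl : ι → P) (q : ℕ → Fin 6 → ℝ),
  (∀ k, q k ≠ 0 ∧ disc (q k) = 0) → (∀ i, Tendsto (x i) atTop (𝓝 (xl i))) →
  (∀ i, ∀ᶠ k in atTop, ev (q k) (x i k) = 0) →
  ∃ q' : Fin 6 → ℝ, q' ≠ 0 ∧ disc q' = 0 ∧ ∀ i, ev q' (xl i) = 0

/-- ELLALG: the algebra of the ellipse property. -/
def S_ellalg : Prop := ∀ G T : ℝ → ℝ, Continuous T → (∀ φ, 0 < G φ) →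
  (∀ φ, HasDerivAt G (G φ * T φ) φ) → (∀ φ, G (φ + Real.pi) = G φ) →
  (∀ φ, T (φ + Real.pi) = T φ) →
  (∀ φ ψ, G ψ * ip (ee φ) (ee ψ + T ψ • ww ψ) ≤ G φ) →
  ∀ (φ₀ : ℝ) (q : Fin 6 → ℝ), q ≠ 0 →
  (∀ φ ∈ Icc (φ₀ - Real.pi) (φ₀ + Real.pi), 0 < G φ₀ + G φ * ip (ee φ₀) (ee φ + T φ • ww φ) →
    ev q (ee φ₀ + T φ₀ • ww φ₀ -
      (G φ / (G φ₀ + G φ * ip (ee φ₀) (ee φ + T φ • ww φ))) • (ee φ + T φ • ww φ)) = 0) →
  ∃ A B C : ℝ, 0 < A ∧ 0 < A * C - B ^ 2 ∧ ∀ φ, bf A B C (ww φ) (ee φ + T φ • ww φ) = 0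

/-- ELL: the ellipse property. -/
def S_ell : Prop := ∀ (M : Set P) (d : P → P → ℝ) (n : P → P → P), PMet M d → Perp M d n →
  ∀ O ∈ M, EllAt n O

/-! ### Second order analysis -/

/-- LIP: the perpendicular direction is Lipschitz along lines. -/
def S_lip : Prop := ∀ (M : Set P) (d : P → P → ℝ) (n : P → P → P), PMet M d → Perp M d n →
  NCont M n → ∀ O ∈ M, ∃ ρ > 0, ∃ C : ℝ, ∀ Y : P, dist Y O < ρ → ∀ u : P, ‖u‖ = 1 →
    ∀ t : ℝ, |t| < ρ → Y ∈ M ∧ Y + t • u ∈ M ∧ ‖n (Y + t • u) u - n Y u‖ ≤ C * |t|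

/-- SPH: second order contact of spheres with a line (normalised position: `O = 0`, the line is
`Ln 0 (0,1)`, orthogonality at `0` is the standard one). -/
def S_sph : Prop := ∀ (M : Set P) (d : P → P → ℝ) (n : P → P → P), PMet M d → Perp M d n →
  (∀ Y ∈ M, EllAt n Y) → (0 : P) ∈ M → (∀ u : P, u ≠ 0 → ip u (n 0 u) = 0) →
  ∀ c : ℝ, HasDerivAt (fun y : ℝ => -(n (0, y) (0, 1)).2) c 0 →
  ∀ s₁ s₂ : ℝ, 0 < s₁ → s₁ ≤ s₂ → (∀ s ∈ Icc (0 : ℝ) s₂, ((s, 0) : P) ∈ M) →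
  ∀ C₀ > 0, ∀ ε > 0, ∃ p₀ > 0, ∀ p : ℝ, 0 < p → p < p₀ → ∀ s ∈ Icc s₁ s₂, ∀ τ : ℝ,
    τ ^ 2 ≤ C₀ * p →
    ((s, τ - (n (0, τ) (0, 1)).2 * s) : P) ∈ M ∧ ((p, 0) : P) ∈ M ∧ ((0, τ) : P) ∈ M ∧
    (τ ^ 2 / 2 * (1 / s + c) + ε * p ≤ p →
      d (s, τ - (n (0, τ) (0, 1)).2 * s) (p, 0) < d (s, τ - (n (0, τ) (0, 1)).2 * s) (0, τ)) ∧
    (p ≤ τ ^ 2 / 2 * (1 / s + c) - ε * p →
      d (s, τ - (n (0, τ) (0, 1)).2 * s) (0, τ) < d (s, τ - (n (0, τ) (0, 1)).2 * s) (p, 0))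

/-- MACRO: points of the parabolic conics with focus `(p,0)` and leading line `Ln 0 (0,1)`, at
fixed height, `p → 0`. -/
def S_macro : Prop := ∀ (M : Set P) (d : P → P → ℝ) (n : P → P → P), PMet M d → Perp M d n →
  (∀ Y ∈ M, EllAt n Y) → (0 : P) ∈ M → (∀ u : P, u ≠ 0 → ip u (n 0 u) = 0) →
  ∀ c : ℝ, HasDerivAt (fun y : ℝ => -(n (0, y) (0, 1)).2) c 0 →
  ∃ x₀ > 0, ∀ x : ℝ, x ≠ 0 → |x| < x₀ → ∃ X : ℝ → P,
    (∀ᶠ p in 𝓝[>] (0 : ℝ), X p ∈ M ∧ d (X p) (p, 0) = hL M d 0 (0, 1) (X p)) ∧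
    Tendsto (fun p : ℝ => (((X p).1, (X p).2 / √(2 * p)) : P)) (𝓝[>] 0)
      (𝓝 (x ^ 2 / (1 - c * x ^ 2), x / (1 - c * x ^ 2)))

/-- CZERO -/
def S_c0 : Prop := ∀ (M : Set P) (d : P → P → ℝ) (n : P → P → P), PMet M d → Perp M d n →
  (∀ Y ∈ M, EllAt n Y) → (0 : P) ∈ M → (∀ u : P, u ≠ 0 → ip u (n 0 u) = 0) →
  ∀ c : ℝ, HasDerivAt (fun y : ℝ => -(n (0, y) (0, 1)).2) c 0 → c = 0

/-- AFF: affine invariance. -/
def S_aff : Prop := ∀ (M : Set P) (d : P → P → ℝ) (n : P → P → P), PMet M d → Perp M d n →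
  ∀ O e₁ e₂ : P, dt e₁ e₂ ≠ 0 →
    PMet {x : P | O + x.1 • e₁ + x.2 • e₂ ∈ M}
      (fun x y => d (O + x.1 • e₁ + x.2 • e₂) (O + y.1 • e₁ + y.2 • e₂)) ∧
    ∃ n' : P → P → P,
      Perp {x : P | O + x.1 • e₁ + x.2 • e₂ ∈ M}
        (fun x y => d (O + x.1 • e₁ + x.2 • e₂) (O + y.1 • e₁ + y.2 • e₂)) n' ∧
      ∀ x u : P, (n' x u).1 • e₁ + (n' x u).2 • e₂ =
        dt e₁ e₂ • n (O + x.1 • e₁ + x.2 • e₂) (u.1 • e₁ + u.2 • e₂)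

/-- DERIV0: the derivative of the perpendicular direction along a line vanishes. -/
def S_deriv0 : Prop := ∀ (M : Set P) (d : P → P → ℝ) (n : P → P → P), PMet M d → Perp M d n →
  (∀ Y ∈ M, EllAt n Y) → ∀ O ∈ M, ∀ u : P, u ≠ 0 → ∀ w : P,
    HasDerivAt (fun t : ℝ => n (O + t • u) u) w 0 → w = 0

/-- CONST: perpendiculars of a line are parallel. -/
def S_const : Prop := ∀ (M : Set P) (d : P → P → ℝ) (n : P → P → P), PMet M d → Perp M d n →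
  ∀ O ∈ M, ∀ u : P, u ≠ 0 → ∀ t : ℝ, O + t • u ∈ M → n (O + t • u) u = n O u

/-- DIR: the perpendicular direction depends on the direction only. -/
def S_dir : Prop := ∀ (M : Set P) (d : P → P → ℝ) (n : P → P → P), PMet M d → Perp M d n →
  (∀ Y ∈ M, EllAt n Y) →
  (∀ O ∈ M, ∀ u : P, u ≠ 0 → ∀ t : ℝ, O + t • u ∈ M → n (O + t • u) u = n O u) →
  ∀ O ∈ M, ∀ O' ∈ M, ∀ u : P, u ≠ 0 → n O u = n O' u

/-- NORM0: normalised case: if the perpendiculars are the Euclidean ones then `d` is a multiple of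
the Euclidean distance. -/
def S_norm0 : Prop := ∀ (M : Set P) (d : P → P → ℝ) (n : P → P → P), PMet M d → Perp M d n →
  (∀ Y ∈ M, ∀ u : P, u ≠ 0 → ip u (n Y u) = 0) →
  ∃ κ > 0, ∀ x ∈ M, ∀ y ∈ M, d x y = κ * √(ip (x - y) (x - y))

/-- NORM -/
def S_norm : Prop := ∀ (M : Set P) (d : P → P → ℝ) (n : P → P → P), PMet M d → Perp M d n →
  (∀ Y ∈ M, EllAt n Y) → (∀ O ∈ M, ∀ O' ∈ M, ∀ u : P, u ≠ 0 → n O u = n O' u) →
  ∃ A B C : ℝ, 0 < A ∧ 0 < A * C - B ^ 2 ∧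
    ∀ x ∈ M, ∀ y ∈ M, d x y = √(bf A B C (x - y) (x - y))

/-- UNIV0: Euclidean distance, normalised. -/
def S_univ0 : Prop := ∀ (M : Set P) (d : P → P → ℝ), PMet M d →
  (∀ x ∈ M, ∀ y ∈ M, d x y = √(ip (x - y) (x - y))) → M = univ

/-- FINA: the affine part. -/
def S_finA : Prop := ∀ (M : Set P) (d : P → P → ℝ), PMet M d →
  M = univ ∧ ∃ A B C : ℝ, 0 < A ∧ 0 < A * C - B ^ 2 ∧
    ∀ x y : P, d x y = √(bf A B C (x - y) (x - y))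

end Pool.Agent.W553.PM
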