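import Mathlib

/-! Projective metric planes, projective type (problem MP_ec5bc9_gt): definitions and statements
of the parts. -/

set_option autoImplicit false

namespace Pool.Agent.W553.PMB

open Set Filter Topology

/-- the vector space whose lines are the points of the projective plane -/
abbrev V := EuclideanSpace ℝ (Fin 3)

/-- distance of `X` to the projective line `φ = 0` -/
noncomputable def hF (δ : V → V → ℝ) (φ : V →ₗ[ℝ] ℝ) (X : V) : ℝ :=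
  sInf ((fun Y => δ X Y) '' {Y | Y ≠ 0 ∧ φ Y = 0})

/-- A metric on the projective plane (written in homogeneous coordinates), with the projective
lines as geodesics, all of length `Λ`, and with all parabolic conics nondegenerate conics. -/
structure EMet (δ : V → V → ℝ) (Λ : ℝ) : Prop where
  lam : 0 < Λ
  hom : ∀ x y : V, x ≠ 0 → y ≠ 0 → ∀ c : ℝ, c ≠ 0 → δ (c • x) y = δ x y
  symm : ∀ x y : V, x ≠ 0 → y ≠ 0 → δ x y = δ y x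
  zero : ∀ x y : V, x ≠ 0 → y ≠ 0 → (δ x y = 0 ↔ ¬ LinearIndependent ℝ ![x, y])
  tri : ∀ x y z : V, x ≠ 0 → y ≠ 0 → z ≠ 0 → δ x z ≤ δ x y + δ y z
  cont : ContinuousOn (fun p : V × V => δ p.1 p.2) {p | p.1 ≠ 0 ∧ p.2 ≠ 0}
  line : ∀ x y : V, LinearIndependent ℝ ![x, y] → ∃ l : ℝ → ℝ,
    ContinuousOn l (Icc 0 Real.pi) ∧ StrictMonoOn l (Icc 0 Real.pi) ∧ l 0 = 0 ∧ l Real.pi = Λ ∧
    ∀ s ∈ Icc 0 Real.pi, ∀ t ∈ Icc 0 Real.pi,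
      δ (Real.cos s • x + Real.sin s • y) (Real.cos t • x + Real.sin t • y) =
        min |l s - l t| (Λ - |l s - l t|)
  strict : ∀ x y z : V, LinearIndependent ℝ ![x, y, z] → δ x z < δ x y + δ y z
  conic : ∀ φ : V →ₗ[ℝ] ℝ, φ ≠ 0 → ∀ F : V, φ F ≠ 0 → ∃ u v w : V →ₗ[ℝ] ℝ,
    LinearIndependent ℝ ![u, v, w] ∧ ∀ X : V, X ≠ 0 → (δ X F = hF δ φ X ↔ u X * w X = (v X) ^ 2)

/-- `θ` (a vector of the line `φ = 0`) is a foot direction at `w`: the ray `w + r θ`, `r ≥ 0`,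
from `w` to its end `θ` on the line is a shortest path from `w` to the line. -/
def Foot (δ : V → V → ℝ) (φ : V →ₗ[ℝ] ℝ) (w θ : V) : Prop :=
  θ ≠ 0 ∧ φ θ = 0 ∧ δ w θ = hF δ φ w ∧ ∀ r : ℝ, 0 ≤ r → δ w (w + r • θ) + δ (w + r • θ) θ = δ w θ

/-- CIRC: a metric circle parametrised by an angle. -/
def S_circ : Prop := ∀ (Λ : ℝ), 0 < Λ → ∀ g : ℝ → ℝ,
  ContinuousOn (fun p : ℝ × ℝ => ⨅ k : ℤ, |g p.1 - g p.2 - k * Λ|)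
    (Icc 0 Real.pi ×ˢ Icc 0 Real.pi) →
  (∀ s ∈ Icc 0 Real.pi, ∀ t ∈ Icc 0 Real.pi, ((⨅ k : ℤ, |g s - g t - k * Λ|) = 0 ↔
    (s = t ∨ (s = 0 ∧ t = Real.pi) ∨ (s = Real.pi ∧ t = 0)))) →
  (∀ r : ℝ, ∃ t ∈ Icc 0 Real.pi, (⨅ k : ℤ, |g t - r - k * Λ|) = 0) →
  ∃ l : ℝ → ℝ, ContinuousOn l (Icc 0 Real.pi) ∧ StrictMonoOn l (Icc 0 Real.pi) ∧ l 0 = 0 ∧
    l Real.pi = Λ ∧ ∀ s ∈ Icc 0 Real.pi, ∀ t ∈ Icc 0 Real.pi,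
      (⨅ k : ℤ, |g s - g t - k * Λ|) = min |l s - l t| (Λ - |l s - l t|)

/-- LE: all distances are at most `Λ/2`, and attained feet. -/
def S_le : Prop := ∀ (δ : V → V → ℝ) (Λ : ℝ), EMet δ Λ →
  (∀ x y : V, x ≠ 0 → y ≠ 0 → 0 ≤ δ x y ∧ δ x y ≤ Λ / 2) ∧
  (∀ φ : V →ₗ[ℝ] ℝ, φ ≠ 0 → ∀ w : V, w ≠ 0 → ∃ Y : V, Y ≠ 0 ∧ φ Y = 0 ∧ hF δ φ w = δ w Y) ∧
  (∀ φ : V →ₗ[ℝ] ℝ, φ ≠ 0 → ∀ w Y : V, w ≠ 0 → Y ≠ 0 → φ Y = 0 → hF δ φ w ≤ δ w Y) ∧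
  (∀ φ : V →ₗ[ℝ] ℝ, φ ≠ 0 → ContinuousOn (hF δ φ) {w | w ≠ 0}) ∧
  (∀ φ : V →ₗ[ℝ] ℝ, φ ≠ 0 → ∀ w : V, φ w ≠ 0 → 0 < hF δ φ w)

/-- FOOT: basic facts on foot directions. -/
def S_foot : Prop := ∀ (δ : V → V → ℝ) (Λ : ℝ), EMet δ Λ → ∀ φ : V →ₗ[ℝ] ℝ, φ ≠ 0 →
  (∀ w : V, φ w ≠ 0 → ∃ θ : V, Foot δ φ w θ) ∧
  (∀ w θ : V, φ w ≠ 0 → Foot δ φ w θ → Foot δ φ w (-θ) → hF δ φ w = Λ / 2) ∧
  (∀ w θ : V, φ w ≠ 0 → Foot δ φ w θ → ∀ c : ℝ, 0 < c → Foot δ φ w (c • θ) ∧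
    Foot δ φ (c • w) θ) ∧
  (∀ w θ : V, φ w ≠ 0 → Foot δ φ w θ → Foot δ φ (-w) (-θ)) ∧
  (∀ (w θ : ℕ → V) (w' θ' : V), Tendsto w atTop (𝓝 w') → Tendsto θ atTop (𝓝 θ') → φ w' ≠ 0 →
    θ' ≠ 0 → (∀ k, Foot δ φ (w k) (θ k)) → Foot δ φ w' θ')

/-- SECTOR: between two feet (seen under an angle less than `π`) there are only feet. -/
def S_sector : Prop := ∀ (δ : V → V → ℝ) (Λ : ℝ), EMet δ Λ → ∀ φ : V →ₗ[ℝ] ℝ, φ ≠ 0 →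
  ∀ w : V, φ w ≠ 0 → hF δ φ w < Λ / 2 → ∀ θ₁ θ₂ : V, Foot δ φ w θ₁ → Foot δ φ w θ₂ →
  LinearIndependent ℝ ![θ₁, θ₂] → ∀ α β : ℝ, 0 < α → 0 < β → Foot δ φ w (α • θ₁ + β • θ₂)

/-- POLE: every line has a pole. -/
def S_pole : Prop := ∀ (δ : V → V → ℝ) (Λ : ℝ), EMet δ Λ → ∀ φ : V →ₗ[ℝ] ℝ, φ ≠ 0 →
  ∃ P : V, φ P ≠ 0 ∧ ∀ Y : V, Y ≠ 0 → φ Y = 0 → δ P Y = Λ / 2

/-- BIJ: every point has a polar line. -/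
def S_bij : Prop := ∀ (δ : V → V → ℝ) (Λ : ℝ), EMet δ Λ → ∀ P : V, P ≠ 0 →
  ∃ φ : V →ₗ[ℝ] ℝ, φ P ≠ 0 ∧ ∀ Y : V, Y ≠ 0 → (δ P Y = Λ / 2 ↔ φ Y = 0)

/-- FORM: an elliptic polarity comes from a positive definite form. -/
def S_form : Prop := ∀ R : V → V → Prop, (∀ x y : V, x ≠ 0 → y ≠ 0 → R x y → R y x) →
  (∀ P : V, P ≠ 0 → ∃ φ : V →ₗ[ℝ] ℝ, φ P ≠ 0 ∧ ∀ Y : V, Y ≠ 0 → (R P Y ↔ φ Y = 0)) →
  (∀ φ : V →ₗ[ℝ] ℝ, φ ≠ 0 → ∃ P : V, P ≠ 0 ∧ ∀ Y : V, Y ≠ 0 → φ Y = 0 → R P Y) →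
  ∃ B : V →ₗ[ℝ] V →ₗ[ℝ] ℝ, (∀ x y, B x y = B y x) ∧ (∀ x, x ≠ 0 → 0 < B x x) ∧
    ∀ x y : V, x ≠ 0 → y ≠ 0 → (R x y ↔ B x y = 0)

/-- LIN: linear invariance. -/
def S_lin : Prop := ∀ (δ : V → V → ℝ) (Λ : ℝ), EMet δ Λ → ∀ g : V ≃ₗ[ℝ] V,
  EMet (fun x y => δ (g x) (g y)) Λ

/-- ROUND: spheres are round. -/
def S_round : Prop := ∀ (δ : V → V → ℝ) (Λ : ℝ), EMet δ Λ →
  (∀ x y : V, x ≠ 0 → y ≠ 0 → (δ x y = Λ / 2 ↔ inner ℝ x y = 0)) →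
  ∀ x θ θ' : V, ‖x‖ = 1 → ‖θ‖ = 1 → ‖θ'‖ = 1 → inner ℝ x θ = 0 → inner ℝ x θ' = 0 →
  ∀ t ∈ Icc 0 (Real.pi / 2),
    δ x (Real.cos t • x + Real.sin t • θ) = δ x (Real.cos t • x + Real.sin t • θ')

/-- STD: the standard elliptic metric. -/
def S_std : Prop := ∀ (δ : V → V → ℝ) (Λ : ℝ), EMet δ Λ →
  (∀ x y : V, x ≠ 0 → y ≠ 0 → (δ x y = Λ / 2 ↔ inner ℝ x y = 0)) →
  ∀ x y : V, ‖x‖ = 1 → ‖y‖ = 1 → δ x y = Λ / Real.pi * Real.arccos |inner ℝ x y|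

/-- the hypotheses of the projective part of the frozen statement -/
structure FB (d : V → V → ℝ) (L : ℝ) : Prop where
  zero : ∀ x ∈ Metric.sphere (0 : V) 1, ∀ y ∈ Metric.sphere (0 : V) 1,
    (d x y = 0 ↔ (x = y ∨ x = -y))
  symm : ∀ x ∈ Metric.sphere (0 : V) 1, ∀ y ∈ Metric.sphere (0 : V) 1, d x y = d y x
  neg : ∀ x ∈ Metric.sphere (0 : V) 1, ∀ y ∈ Metric.sphere (0 : V) 1, d (-x) y = d x y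
  tri : ∀ x ∈ Metric.sphere (0 : V) 1, ∀ y ∈ Metric.sphere (0 : V) 1,
    ∀ z ∈ Metric.sphere (0 : V) 1, d x z ≤ d x y + d y z
  basis : ∀ x ∈ Metric.sphere (0 : V) 1, Filter.HasBasis
    (nhdsWithin x (Metric.sphere (0 : V) 1) ⊔ nhdsWithin (-x) (Metric.sphere (0 : V) 1))
    (fun r : ℝ => 0 < r) (fun r => {y | y ∈ Metric.sphere (0 : V) 1 ∧ d x y < r})
  pos : 0 < L
  geod : ∀ n : V, n ≠ 0 → ∃ γ : ℝ → V,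
    (∀ t, γ t ∈ Metric.sphere (0 : V) 1 ∧ inner ℝ n (γ t) = 0) ∧
    (∀ x ∈ Metric.sphere (0 : V) 1, inner ℝ n x = 0 → ∃ t, γ t = x ∨ γ t = -x) ∧
    ∀ s t : ℝ, d (γ s) (γ t) = ⨅ k : ℤ, |s - t - (k : ℝ) * L|
  strict : ∀ x ∈ Metric.sphere (0 : V) 1, ∀ y ∈ Metric.sphere (0 : V) 1,
    ∀ z ∈ Metric.sphere (0 : V) 1, LinearIndependent ℝ ![x, y, z] → d x z < d x y + d y z
  conic : ∀ n : V, n ≠ 0 → ∀ F ∈ Metric.sphere (0 : V) 1, inner ℝ n F ≠ 0 →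
    ∃ u v w : V, LinearIndependent ℝ ![u, v, w] ∧
      {X | X ∈ Metric.sphere (0 : V) 1 ∧ d X F = sInf ((fun Y => d X Y) ''
          {Y | Y ∈ Metric.sphere (0 : V) 1 ∧ inner ℝ n Y = 0})}
        = {x | x ∈ Metric.sphere (0 : V) 1 ∧ inner ℝ u x * inner ℝ w x = (inner ℝ v x) ^ 2}

/-- TRANSB: from the frozen hypotheses to `EMet`. -/
def S_transB : Prop := ∀ (d : V → V → ℝ) (L : ℝ), FB d L →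
  EMet (fun x y => d (‖x‖⁻¹ • x) (‖y‖⁻¹ • y)) L

/-- FINB: the projective part. -/
def S_finB : Prop := ∀ (δ : V → V → ℝ) (Λ : ℝ), EMet δ Λ → ∃ g : V ≃ₗ[ℝ] V,
  ∀ x y : V, x ≠ 0 → y ≠ 0 →
    δ x y = Λ / Real.pi * Real.arccos (|inner ℝ (g x) (g y)| / (‖g x‖ * ‖g y‖))

end Pool.Agent.W553.PMB
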